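import Pool.Agent.Y831.RC3.Apply3
import Pool.Agent.H474R2.PG.CovA
import Pool.Agent.H474R2.PG.Rough

set_option autoImplicit false
set_option linter.unusedSectionVars false
set_option linter.unusedVariables false

/-! # The optimal profile for the densities `r(p)/p` -/

namespace Pool.Agent.K4H19.PF

open Finset Filter Pool.Agent.H256R2.SC Pool.Agent.Y831.RC

open scoped Classical

/-- sieving primes `y < p ≤ z` with `r p ≠ 0` -/
noncomputable abbrev PR' (r : ℕ → ℕ) (y z : ℝ) : Finset ℕ := Pool.Agent.H474R2.PG.PS r y z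

theorem PR'_mem {r : ℕ → ℕ} {y z : ℝ} (hz : 0 ≤ z) {p : ℕ} (hp : p ∈ PR' r y z) :
    p.Prime ∧ y < (p:ℝ) ∧ (p:ℝ) ≤ z ∧ r p ≠ 0 := by
  unfold PR' Pool.Agent.H474R2.PG.PS Pool.Agent.H474R2.PG.PR at hp
  rw [Finset.mem_filter, Finset.mem_filter, Finset.mem_Icc] at hp
  refine ⟨hp.1.2, hp.2.1, ?_, hp.2.2⟩
  calc (p:ℝ) ≤ (⌊z⌋₊ : ℝ) := by exact_mod_cast hp.1.1.2
    _ ≤ z := Nat.floor_le hz

theorem mem_PR' {r : ℕ → ℕ} {y z : ℝ} {p : ℕ} (h1 : p.Prime) (h2 : y < (p:ℝ)) (h3 : (p:ℝ) ≤ z)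
    (h4 : r p ≠ 0) : p ∈ PR' r y z := by
  unfold PR' Pool.Agent.H474R2.PG.PS Pool.Agent.H474R2.PG.PR
  rw [Finset.mem_filter, Finset.mem_filter, Finset.mem_Icc]
  exact ⟨⟨⟨h1.one_le, Nat.le_floor h3⟩, h1⟩, h2, h4⟩

/-- the density -/
noncomputable def dn (r : ℕ → ℕ) (p : ℕ) : ℝ := (r p : ℝ) / (p : ℝ)

theorem dn_nonneg (r : ℕ → ℕ) (p : ℕ) : 0 ≤ dn r p := by unfold dn; positivity

theorem dn_pos {r : ℕ → ℕ} {p : ℕ} (hp : 0 < p) (hr : r p ≠ 0) : 0 < dn r p := by
  unfold dn
  have h1 : (0:ℝ) < p := by exact_mod_cast hp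
  have h2 : (0:ℝ) < r p := by exact_mod_cast Nat.pos_of_ne_zero hr
  positivity

/-- the sum over the small sets -/
theorem small_r (r : ℕ → ℕ) (y z v₀ : ℝ) (hz : 0 ≤ z) (hy : 1 ≤ y) :
    ∑ s : Finset (Fin (PR' r y z).card) with
      Real.log (∏ i ∈ s, ((emb (PR' r y z) i : ℕ) : ℝ)) < v₀,
      ∏ i ∈ s, dn r (emb (PR' r y z) i) ≤
    Real.exp (∑ p ∈ PR' r y (Real.exp v₀), dn r p) := by
  set PP : Finset ℕ := PR' r y z with hPP
  set P : Fin PP.card → ℝ := fun i => ((emb PP i : ℕ) : ℝ) with hP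
  have hP1 : ∀ i, 1 < P i := fun i => by
    have := (PR'_mem hz (emb_mem PP i)).2.1
    linarith
  have hP0 : ∀ i, 0 < P i := fun i => zero_lt_one.trans (hP1 i)
  set T : Finset (Fin PP.card) := univ.filter (fun i => P i < Real.exp v₀) with hT
  have h1 : ∑ s : Finset (Fin PP.card) with Real.log (∏ i ∈ s, P i) < v₀,
      ∏ i ∈ s, dn r (emb PP i) ≤ ∑ s ∈ T.powerset, ∏ i ∈ s, dn r (emb PP i) := by
    apply Finset.sum_le_sum_of_subset_of_nonneg
    · intro s hs
      rw [Finset.mem_filter] at hs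
      rw [Finset.mem_powerset]
      intro i hi
      rw [hT, Finset.mem_filter]
      refine ⟨Finset.mem_univ _, ?_⟩
      have hpos : 0 < ∏ i ∈ s, P i := Finset.prod_pos fun i _ => hP0 i
      have h2 : ∏ i ∈ s, P i < Real.exp v₀ := by
        rw [← Real.log_lt_iff_lt_exp hpos]
        exact hs.2
      refine lt_of_le_of_lt ?_ h2
      rw [← Finset.mul_prod_erase s P hi]
      have h3 : (1 : ℝ) ≤ ∏ j ∈ s.erase i, P j := by
        calc (1 : ℝ) = ∏ _j ∈ s.erase i, (1 : ℝ) := by simp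
          _ ≤ _ := Finset.prod_le_prod (fun _ _ => zero_le_one) (fun j _ => (hP1 j).le)
      calc P i = P i * 1 := (mul_one _).symm
        _ ≤ P i * ∏ j ∈ s.erase i, P j := mul_le_mul_of_nonneg_left h3 (hP0 i).le
    · intro s _ _
      exact Finset.prod_nonneg fun i _ => dn_nonneg _ _
  refine h1.trans ?_
  rw [← Finset.prod_one_add]
  have h2 : ∏ i ∈ T, (1 + dn r (emb PP i)) ≤ Real.exp (∑ i ∈ T, dn r (emb PP i)) := by
    rw [Real.exp_sum]
    apply Finset.prod_le_prod
    · intro i _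
      have := dn_nonneg r (emb PP i)
      positivity
    · intro i _
      rw [add_comm]
      exact Real.add_one_le_exp _
  refine h2.trans (Real.exp_le_exp.2 ?_)
  have h3 : ∑ i ∈ T, dn r (emb PP i) = ∑ p ∈ T.map (emb PP), dn r p := by
    rw [Finset.sum_map]
  rw [h3]
  apply Finset.sum_le_sum_of_subset_of_nonneg
  · intro p hp
    rw [Finset.mem_map] at hp
    obtain ⟨i, hi, rfl⟩ := hp
    rw [hT, Finset.mem_filter] at hi
    obtain ⟨g1, g2, g3, g4⟩ := PR'_mem hz (emb_mem PP i)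
    exact mem_PR' g1 g2 hi.2.le g4
  · intro p _ _
    exact dn_nonneg _ _

theorem profR (r : ℕ → ℕ) (m₀ : ℕ) (y z v₀ A₀ B₁ G₂ V : ℝ) (hy : 2 ≤ y) (hz : 1 < z) (hv₀ : 0 < v₀)
    (hyv : Real.log y ≤ v₀) (hv₀z : v₀ ≤ Real.log z) (hA₀ : 0 < A₀)
    (hRL : ∀ x : ℝ, y ≤ x → x ≤ z → V * Real.log x - 1 ≤
      ∑ s ∈ ((PR' r y z).powerset.filter
        (fun s : Finset ℕ => s.Nonempty ∧ ∏ p ∈ s, (p : ℝ) ≤ x)), ∏ p ∈ s, (r p : ℝ) / (p : ℝ))
    (hB : ∑ s : Finset (Fin (PR' r y z).card) with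
      Real.log (∏ i ∈ s, ((emb (PR' r y z) i : ℕ) : ℝ)) < v₀,
      ∏ i ∈ s, dn r (emb (PR' r y z) i) ≤ B₁)
    (hG : ∑ i, dn r (emb (PR' r y z) i) ≤ G₂)
    (hA : A₀ ≤ V * Real.log (Real.log z / v₀) - B₁ / v₀ -
      Real.exp (3 * G₂ - m₀) / v₀)
    (hBA : B₁ ≤ A₀ * v₀) :
    ∃ h, HypS (fun i => ((emb (PR' r y z) i : ℕ) : ℝ)) (fun i => dn r (emb (PR' r y z) i))
      h z (1 / A₀) v₀ ∧ ∀ s, h s ≠ 0 → s.card ≤ m₀ := by
  have hzpos : 0 < z := by linarith
  have hypos : 0 < y := by linarith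
  set PP : Finset ℕ := PR' r y z with hPP
  set P : Fin PP.card → ℝ := fun i => ((emb PP i : ℕ) : ℝ) with hP
  have hmem : ∀ i, (emb PP i).Prime ∧ y < ((emb PP i : ℕ):ℝ) ∧ ((emb PP i : ℕ):ℝ) ≤ z ∧
      r (emb PP i) ≠ 0 := fun i => PR'_mem hzpos.le (emb_mem PP i)
  have hP1 : ∀ i, 1 < P i := fun i => by
    have := (hmem i).2.1
    have h2 : (1:ℝ) < y := by linarith
    exact h2.trans this
  have hP0 : ∀ i, 0 < P i := fun i => zero_lt_one.trans (hP1 i)
  have hg0 : ∀ i, 0 < dn r (emb PP i) := fun i => dn_pos (hmem i).1.pos (hmem i).2.2.2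
  have hgpos : ∀ s : Finset (Fin PP.card), 0 < ∏ i ∈ s, dn r (emb PP i) := fun s =>
    Finset.prod_pos fun i _ => hg0 i
  have hppos : ∀ s : Finset (Fin PP.card), 0 < ∏ i ∈ s, P i := fun s =>
    Finset.prod_pos fun i _ => hP0 i
  have hB1 : 1 ≤ B₁ := by
    refine le_trans ?_ hB
    have e : (∏ i ∈ (∅ : Finset (Fin PP.card)), dn r (emb PP i)) = 1 := Finset.prod_empty
    rw [← e]
    refine Finset.single_le_sum (f := fun s : Finset (Fin PP.card) => ∏ i ∈ s, dn r (emb PP i))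
      (fun s _ => (hgpos s).le) ?_
    rw [Finset.mem_filter]
    exact ⟨Finset.mem_univ _, by simpa using hv₀⟩
  refine exists_hT m₀ P (fun i => dn r (emb PP i)) hP1 hg0 z A₀ v₀ B₁
    hz hA₀ hv₀ (hA.trans ?_) hB hBA
  set S : Finset (Finset (Fin PP.card)) := univ.filter (fun s : Finset (Fin PP.card) =>
    (s.Nonempty ∧ v₀ ≤ Real.log (∏ i ∈ s, P i)) ∧ ∏ i ∈ s, P i ≤ z) with hS
  -- summation by parts, for the scaled weights
  have hmain : (V / B₁) * Real.log (Real.log z / v₀) - 1 / v₀ ≤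
      ∑ s ∈ S, ((∏ i ∈ s, dn r (emb PP i)) / B₁) / Real.log (∏ i ∈ s, P i) := by
    refine alog_lower S (fun s => (∏ i ∈ s, dn r (emb PP i)) / B₁)
      (fun s => Real.log (∏ i ∈ s, P i))
      (fun s _ => div_nonneg (hgpos s).le (by linarith)) ?_ _ v₀ (Real.log z) hv₀ hv₀z ?_
    · intro s hs
      have := (Finset.mem_filter.1 hs).2.1.2
      linarith
    · intro v hv1 hv2
      have h1 := hRL (Real.exp v) (by
          rw [← Real.log_le_iff_le_exp hypos]
          exact hyv.trans hv1)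
        (by rw [← Real.exp_log hzpos]; exact Real.exp_le_exp.2 hv2)
      rw [Real.log_exp] at h1
      have h1' : V * v - 1 ≤ Asum P (fun i => dn r (emb PP i)) (Real.exp v) := by
        refine h1.trans (le_of_eq ?_)
        exact (Pool.Agent.H474R2.PG.Asum_enum' PP (dn r) (Real.exp v)).symm
      have h2 : V * v ≤
          1 + Asum P (fun i => dn r (emb PP i)) (Real.exp v) := by linarith
      have h3 : 1 + Asum P (fun i => dn r (emb PP i)) (Real.exp v) ≤
          B₁ + ∑ s ∈ S with Real.log (∏ i ∈ s, P i) ≤ v, ∏ i ∈ s, dn r (emb PP i) := by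
        have h4 : 1 + Asum P (fun i => dn r (emb PP i)) (Real.exp v) =
            ∑ s : Finset (Fin PP.card) with Real.log (∏ i ∈ s, P i) ≤ v,
              ∏ i ∈ s, dn r (emb PP i) := by
          have e1 : (univ.filter (fun s : Finset (Fin PP.card) => Real.log (∏ i ∈ s, P i) ≤ v)) =
              insert ∅ (univ.filter (fun s : Finset (Fin PP.card) =>
                s.Nonempty ∧ ∏ i ∈ s, P i ≤ Real.exp v)) := by
            ext s
            rw [Finset.mem_insert, Finset.mem_filter, Finset.mem_filter,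
              Real.log_le_iff_le_exp (hppos s)]
            constructor
            · intro hs
              rcases Finset.eq_empty_or_nonempty s with he | he
              · exact Or.inl he
              · exact Or.inr ⟨hs.1, he, hs.2⟩
            · rintro (rfl | hs)
              · refine ⟨Finset.mem_univ _, ?_⟩
                rw [Finset.prod_empty]
                exact Real.one_le_exp (by linarith)
              · exact ⟨hs.1, hs.2.2⟩
          rw [e1, Finset.sum_insert (by simp), Finset.prod_empty]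
          rfl
        rw [h4, ← Finset.sum_filter_add_sum_filter_not _
          (fun s : Finset (Fin PP.card) => Real.log (∏ i ∈ s, P i) < v₀)]
        apply add_le_add
        · refine le_trans ?_ hB
          apply Finset.sum_le_sum_of_subset_of_nonneg
          · intro s hs
            rw [Finset.mem_filter, Finset.mem_filter] at hs
            rw [Finset.mem_filter]
            exact ⟨Finset.mem_univ _, hs.2⟩
          · intro s _ _
            exact (hgpos s).le
        · apply Finset.sum_le_sum_of_subset_of_nonneg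
          · intro s hs
            rw [Finset.mem_filter, Finset.mem_filter] at hs
            rw [Finset.mem_filter, hS, Finset.mem_filter]
            have h5 := not_lt.1 hs.2
            refine ⟨⟨Finset.mem_univ _, ⟨?_, h5⟩, ?_⟩, hs.1.2⟩
            · rw [Finset.nonempty_iff_ne_empty]
              rintro rfl
              simp at h5
              linarith
            · rw [← Real.log_le_log_iff (hppos s) hzpos]
              exact hs.1.2.trans hv2
          · intro s _ _
            exact (hgpos s).le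
      have h5 : V * v - B₁ ≤
          ∑ s ∈ S with Real.log (∏ i ∈ s, P i) ≤ v, ∏ i ∈ s, dn r (emb PP i) := by linarith
      rw [← Finset.sum_div, le_div_iff₀ (by linarith)]
      refine le_trans (le_of_eq ?_) h5
      field_simp
  have h6 : V * Real.log (Real.log z / v₀) - B₁ / v₀ =
      ((V / B₁) * Real.log (Real.log z / v₀) - 1 / v₀) * B₁ := by
    field_simp
  have h7 : V * Real.log (Real.log z / v₀) - B₁ / v₀ ≤
      ∑ s ∈ S, (∏ i ∈ s, dn r (emb PP i)) / Real.log (∏ i ∈ s, P i) := by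
    rw [h6]
    refine (mul_le_mul_of_nonneg_right hmain (by linarith)).trans (le_of_eq ?_)
    rw [Finset.sum_mul]
    refine Finset.sum_congr rfl fun s _ => ?_
    have : B₁ ≠ 0 := by linarith
    field_simp
  have h8 := Finset.sum_filter_add_sum_filter_not S (fun s : Finset (Fin PP.card) => s.card ≤ m₀)
    (fun s => (∏ i ∈ s, dn r (emb PP i)) / Real.log (∏ i ∈ s, P i))
  have h9 : ∑ s ∈ S with ¬ s.card ≤ m₀, (∏ i ∈ s, dn r (emb PP i)) / Real.log (∏ i ∈ s, P i) ≤
      Real.exp (3 * G₂ - m₀) / v₀ := by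
    calc ∑ s ∈ S with ¬ s.card ≤ m₀, (∏ i ∈ s, dn r (emb PP i)) / Real.log (∏ i ∈ s, P i)
        ≤ ∑ s ∈ S with ¬ s.card ≤ m₀, (∏ i ∈ s, dn r (emb PP i)) / v₀ := by
          apply Finset.sum_le_sum
          intro s hs
          have h10 := (Finset.mem_filter.1 (Finset.mem_filter.1 hs).1).2.1.2
          exact div_le_div_of_nonneg_left (hgpos s).le hv₀ h10
      _ = (∑ s ∈ S with ¬ s.card ≤ m₀, ∏ i ∈ s, dn r (emb PP i)) / v₀ := by rw [Finset.sum_div]
      _ ≤ (∑ s : Finset (Fin PP.card) with ¬ s.card ≤ m₀, ∏ i ∈ s, dn r (emb PP i)) / v₀ := by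
          apply div_le_div_of_nonneg_right _ hv₀.le
          apply Finset.sum_le_sum_of_subset_of_nonneg
          · intro s hs
            rw [Finset.mem_filter] at hs ⊢
            exact ⟨Finset.mem_univ _, hs.2⟩
          · intro s _ _
            exact (hgpos s).le
      _ ≤ _ := by
          apply div_le_div_of_nonneg_right _ hv₀.le
          exact loss_le (fun i => dn r (emb PP i)) hg0 m₀ G₂ hG
  have h10 : ∑ s ∈ S with s.card ≤ m₀, (∏ i ∈ s, dn r (emb PP i)) / Real.log (∏ i ∈ s, P i) =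
      ∑ s : Finset (Fin PP.card) with ((s.Nonempty ∧ v₀ ≤ Real.log (∏ i ∈ s, P i)) ∧
        ∏ i ∈ s, P i ≤ z) ∧ s.card ≤ m₀, (∏ i ∈ s, dn r (emb PP i)) /
          Real.log (∏ i ∈ s, P i) := by
    rw [hS, Finset.filter_filter]
  rw [← h10]
  linarith

end Pool.Agent.K4H19.PF
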