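import Pool.Agent.K4H19.FQ.Cover6
import Pool.Agent.K4H19.PF.BH7

set_option autoImplicit false
set_option linter.unusedSectionVars false
set_option linter.unusedVariables false

/-! # The covering theorem with several classes for each prime, under numerical conditions -/

namespace Pool.Agent.K4H19.PF

open Finset Filter Pool.Agent.H256R2.SC Pool.Agent.Y831.RC Pool.Agent.K4H19.FQ
open Pool.Agent.H474R2.PG (colh colh_eq TT TT_mem TT_prod TT_nu sT sT_eq event_iff')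

open scoped Classical

section split
variable {κ : Type} [Fintype κ] [DecidableEq κ] {n₁ n₂ : ℕ}

theorem split_event (D : Col (n₁ + n₂) κ) (x₁ : Col n₁ κ) (x₂ : Col n₂ κ) :
    (∀ i, D i ≠ none → (Fin.append x₁ x₂ : Col (n₁ + n₂) κ) i = D i) ↔
      (∀ i, fstc D i ≠ none → x₁ i = fstc D i) ∧ (∀ i, sndc D i ≠ none → x₂ i = sndc D i) := by
  constructor
  · intro h
    refine ⟨fun i hi => ?_, fun i hi => ?_⟩
    · have := h (Fin.castAdd n₂ i) hi
      rwa [Fin.append_left] at this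
    · have := h (Fin.natAdd n₁ i) hi
      rwa [Fin.append_right] at this
  · rintro ⟨h1, h2⟩ i
    refine Fin.addCases (fun j => ?_) (fun j => ?_) i
    · intro hj
      rw [Fin.append_left]
      exact h1 j hj
    · intro hj
      rw [Fin.append_right]
      exact h2 j hj

theorem split_nu (p₁ : Fin n₁ → ℝ) (p₂ : Fin n₂ → ℝ) (D : Col (n₁ + n₂) κ) :
    nu (Fin.append p₁ p₂) D = nu p₁ (fstc D) * nu p₂ (sndc D) := by
  unfold nu
  rw [Fin.prod_univ_add]
  simp only [Fin.append_left, Fin.append_right]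
  rfl

theorem split_qq (p₁ : Fin n₁ → ℝ) (p₂ : Fin n₂ → ℝ) (D : Col (n₁ + n₂) κ) :
    qq (Fin.append p₁ p₂) D = qq p₁ (fstc D) * qq p₂ (sndc D) := by
  unfold qq
  rw [Fin.prod_univ_add]
  simp only [Fin.append_left, Fin.append_right]
  rfl

end split

theorem cover7 (r : ℕ → ℕ) (dd w y z K Q δ η G₂ v₀ m τ R₂ MR QR T U QT lam Err : ℝ)
    (JR J m₀ rr J₂ : ℕ) (hJ : Even J) (hm₀ : m₀ ≤ J)
    (hw2 : 2 ≤ w) (hwy : w ≤ y) (hyz : y ≤ z)
    (hz1 : 1 < z) (hQ : 1 ≤ Q) (hη0 : 0 < η) (hη1 : η ≤ 1)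
    (hdd : 1 ≤ dd) (hrd : ∀ p : ℕ, p.Prime → w < (p:ℝ) → (r p : ℝ) ≤ dd)
    (hG₂ : ∑ i, dn r (emb (PR' r y z) i) ≤ G₂)
    (hH : ∃ h, HypS (fun i => ((emb (PR' r y z) i : ℕ) : ℝ))
      (fun i => dn r (emb (PR' r y z) i)) h z K v₀ ∧ ∀ s, h s ≠ 0 → s.card ≤ m₀)
    (hδ : 2 * (Real.log Q / Real.log y * (dd / y)) ≤ δ)
    (κ : Type) [Fintype κ] [DecidableEq κ] [Nonempty κ] (u : ℝ) (hu : (Fintype.card κ : ℝ) = u)
    (hτ0 : 0 ≤ τ) (hτ1 : τ ≤ 1) (hMR : 1 ≤ MR) (hQR : 1 ≤ QR)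
    (hR : ∃ R : κ → Col (PR' r w y).card κ → ℝ,
      BHyp (fun i => dn r (emb (PR' r w y) i)) R m τ ∧
      ∀ k, MB (fun i => ((emb (PR' r w y) i : ℕ) : ℝ)) MR QR JR (R k))
    (hr : Real.log Q / v₀ ≤ rr) (hrm : (rr:ℝ) + 1 ≤ m) (hR₂ : 1 ≤ R₂)
    (huw : 2 * u * dd ≤ w) (hdy : 9 * dd ≤ y) (huδ : u * δ ≤ 1 / 4)
    (hlam : u * rho (fun i => dn r (emb (PR' r w y) i)) 1 ≤ lam)
    (hE8 : Real.exp (η * ((1 + η) * (lam * K) / Real.log z -
      Real.log (Q / z) / Real.log z)) ≤ 1 / 8)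
    (htail : 4 * lam * (τ + (δ ^ 2 +
      Real.exp (η * ((1 + η) * (lam * K) / Real.log z -
      Real.log (Q / z) / Real.log z)))) ≤ 1 / 12)
    (hmom : 2 * lam * ((1 / 3) ^ J * Real.exp (20 * G₂)) ≤ 1 / 12)
    (hpen : 2 * lam * Real.exp (20 * G₂) ≤ R₂ / 12)
    (hJ₂ : Real.log Q / Real.log y ≤ J₂)
    (hT1 : 1 ≤ T) (hT : u * G₂ ≤ T) (hU1 : 1 ≤ U) (hU : u ≤ U)
    (hQT : (QR ^ rr * Q) * (QR ^ rr * Q) * (QR * z ^ J) ≤ QT)
    (𝒜 : Finset ℤ) (N : ℝ) (hN : 0 < N) (hErr : 0 ≤ Err)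
    (hit : ℕ → ℤ → κ → Prop)
    (huniq : ∀ p : ℕ, p.Prime → w < p → (p : ℝ) ≤ z → ∀ a k l, hit p a k → hit p a l → k = l)
    (hcnt : ∀ (T : Finset ℕ) (s : ℕ → κ), (∏ p ∈ T, (p : ℝ)) ≤ QT →
      (∀ p ∈ T, p.Prime ∧ w < (p:ℝ)) →
      |((𝒜.filter (fun a => ∀ p ∈ T, hit p a (s p))).card : ℝ) - N * ∏ p ∈ T, dn r p| ≤ Err)
    (hfin : MF u U T MR rr JR J₂ J * (QT * Err) ≤ N / 8) :
    3 / 8 * N ≤ ((𝒜.filter (fun a => ∀ k : κ, ∃ p : ℕ, p.Prime ∧ w < p ∧
      (p : ℝ) ≤ z ∧ hit p a k)).card : ℝ) *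
      (3 * (1 + 3 * Real.exp G₂ * ((J : ℝ) + 2) ^ (2 * J) * (R₂ + 1)) ^ rr) ^ 2 := by
  obtain ⟨h, H, hcard⟩ := hH
  have hzpos : 0 < z := zero_lt_one.trans hz1
  have hu0 : 0 ≤ u := by rw [← hu]; positivity
  have hdd0 : 0 < dd := by linarith
  have hy2 : 2 ≤ y := hw2.trans hwy
  have hy0 : 0 < y := by linarith
  have hw0 : 0 < w := by linarith
  have hlogy : 0 < Real.log y := Real.log_pos (by linarith)
  set PP₁ : Finset ℕ := PR' r w y with hPP₁
  set PP₂ : Finset ℕ := PR' r y z with hPP₂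
  obtain ⟨R, HR, hRL⟩ := hR
  have hm₁ : ∀ p ∈ PP₁, p.Prime ∧ w < (p:ℝ) ∧ (p:ℝ) ≤ y ∧ r p ≠ 0 := fun p hp => PR'_mem hy0.le hp
  have hm₂ : ∀ p ∈ PP₂, p.Prime ∧ y < (p:ℝ) ∧ (p:ℝ) ≤ z ∧ r p ≠ 0 :=
    fun p hp => PR'_mem hzpos.le hp
  have hd : Disjoint PP₁ PP₂ := by
    rw [Finset.disjoint_left]
    intro p hp hp'
    have h1 := (hm₁ p hp).2.2.1
    have h2 := (hm₂ p hp').2.1
    linarith
  have hu₁ : ∀ p ∈ PP₁, ∀ a k l, hit p a k → hit p a l → k = l := by
    intro p hp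
    obtain ⟨h1, h2, h4, _⟩ := hm₁ p hp
    exact huniq p h1 h2 (h4.trans hyz)
  have hu₂ : ∀ p ∈ PP₂, ∀ a k l, hit p a k → hit p a l → k = l := by
    intro p hp
    obtain ⟨h1, h2, h4, _⟩ := hm₂ p hp
    exact huniq p h1 (lt_of_le_of_lt hwy h2) h4
  have hPw : ∀ i, w < ((emb PP₁ i : ℕ) : ℝ) := fun i => (hm₁ _ (emb_mem PP₁ i)).2.1
  have hP₁0 : ∀ i, 0 < ((emb PP₁ i : ℕ) : ℝ) := fun i => by have := hPw i; linarith
  have hPy : ∀ i, y < ((emb PP₂ i : ℕ) : ℝ) := fun i => (hm₂ _ (emb_mem PP₂ i)).2.1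
  have hP0 : ∀ i, 0 < ((emb PP₂ i : ℕ) : ℝ) := fun i => by have := hPy i; linarith
  have hr₁ : ∀ i, (r (emb PP₁ i) : ℝ) ≤ dd := fun i => by
    obtain ⟨h1, h2, h3, h4⟩ := hm₁ _ (emb_mem PP₁ i)
    exact hrd _ h1 h2
  have hr₂ : ∀ i, (r (emb PP₂ i) : ℝ) ≤ dd := fun i => by
    obtain ⟨h1, h2, h3, h4⟩ := hm₂ _ (emb_mem PP₂ i)
    exact hrd _ h1 (lt_of_le_of_lt hwy h2)
  have hgy : ∀ i, dn r (emb PP₂ i) ≤ dd / y := fun i => by
    unfold dn
    exact div_le_div₀ hdd0.le (hr₂ i) hy0 (hPy i).le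
  have hgw : ∀ i, dn r (emb PP₁ i) ≤ dd / w := fun i => by
    unfold dn
    exact div_le_div₀ hdd0.le (hr₁ i) hw0 (hPw i).le
  have hG0 : 0 ≤ ∑ i, dn r (emb PP₂ i) := Finset.sum_nonneg fun i _ => dn_nonneg _ _
  have hG₂0 : 0 ≤ G₂ := hG0.trans hG₂
  -- sizes of supports
  have hsuppc : ∀ D : Col PP₂.card κ, qq (fun i => ((emb PP₂ i : ℕ) : ℝ)) D ≤ Q →
      ((Pool.Agent.H256R2.SC.supp D).card : ℝ) ≤ Real.log Q / Real.log y := by
    intro D hD
    have h1 : Real.exp (((Pool.Agent.H256R2.SC.supp D).card : ℝ) * Real.log y) ≤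
        qq (fun i => ((emb PP₂ i : ℕ) : ℝ)) D := by
      unfold qq
      rw [prod_nu1]
      have : Real.exp (((Pool.Agent.H256R2.SC.supp D).card : ℝ) * Real.log y) =
          ∏ i ∈ Pool.Agent.H256R2.SC.supp D, Real.exp (Real.log y) := by
        rw [Finset.prod_const, ← Real.exp_nat_mul]
      rw [this]
      apply Finset.prod_le_prod
      · intro i _; exact (Real.exp_pos _).le
      · intro i _
        rw [Real.exp_log hy0]
        exact (hPy i).le
    have h2 := h1.trans hD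
    have h3 : ((Pool.Agent.H256R2.SC.supp D).card : ℝ) * Real.log y ≤ Real.log Q := by
      rw [Real.le_log_iff_exp_le (by linarith)]
      exact h2
    rw [le_div_iff₀ hlogy]
    exact h3
  have hsupp : ∀ D : Col PP₂.card κ, qq (fun i => ((emb PP₂ i : ℕ) : ℝ)) D ≤ Q →
      2 * ∑ i with D i ≠ none, dn r (emb PP₂ i) ≤ δ := by
    intro D hD
    have h4 := hsuppc D hD
    have h5 : ∑ i with D i ≠ none, dn r (emb PP₂ i) ≤
        (Pool.Agent.H256R2.SC.supp D).card * (dd / y) := by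
      have : ∑ i ∈ Pool.Agent.H256R2.SC.supp D, dn r (emb PP₂ i) ≤
          ∑ i ∈ Pool.Agent.H256R2.SC.supp D, (dd / y) :=
        Finset.sum_le_sum (fun i _ => hgy i)
      rw [Finset.sum_const, nsmul_eq_mul] at this
      exact this
    refine le_trans ?_ hδ
    apply mul_le_mul_of_nonneg_left _ (by norm_num)
    exact h5.trans (mul_le_mul_of_nonneg_right h4 (by positivity))
  have hJ₂' : ∀ D : Col PP₂.card κ, qq (fun i => ((emb PP₂ i : ℕ) : ℝ)) D ≤ Q →
      (Pool.Agent.H256R2.SC.supp D).card ≤ J₂ := by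
    intro D hD
    have := (hsuppc D hD).trans hJ₂
    exact_mod_cast this
  -- the primes
  set E : Fin (PP₁.card + PP₂.card) → ℕ := Fin.append (emb PP₁) (emb PP₂) with hE
  have hEP : ∀ i, (E i).Prime := by
    intro i
    refine Fin.addCases (fun j => ?_) (fun j => ?_) i
    · rw [hE, Fin.append_left]
      exact (hm₁ _ (emb_mem PP₁ j)).1
    · rw [hE, Fin.append_right]
      exact (hm₂ _ (emb_mem PP₂ j)).1
  have hEinj : Function.Injective E := by
    intro i j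
    refine Fin.addCases (fun a => ?_) (fun a => ?_) i
    · refine Fin.addCases (fun b => ?_) (fun b => ?_) j
      · rw [hE, Fin.append_left, Fin.append_left]
        intro h
        rw [(emb PP₁).injective h]
      · rw [hE, Fin.append_left, Fin.append_right]
        intro h
        exact absurd (h ▸ emb_mem PP₂ b) (Finset.disjoint_left.1 hd (emb_mem PP₁ a))
    · refine Fin.addCases (fun b => ?_) (fun b => ?_) j
      · rw [hE, Fin.append_left, Fin.append_right]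
        intro h
        exact absurd (h ▸ emb_mem PP₂ a) (Finset.disjoint_left.1 hd (emb_mem PP₁ b))
      · rw [hE, Fin.append_right, Fin.append_right]
        intro h
        rw [(emb PP₂).injective h]
  have hPE : ∀ i, (Fin.append (fun i => ((emb PP₁ i : ℕ) : ℝ)) (fun i => ((emb PP₂ i : ℕ) : ℝ)) :
      Fin (PP₁.card + PP₂.card) → ℝ) i = ((E i : ℕ) : ℝ) := by
    intro i
    refine Fin.addCases (fun j => ?_) (fun j => ?_) i
    · rw [hE, Fin.append_left, Fin.append_left]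
    · rw [hE, Fin.append_right, Fin.append_right]
  have hevent : ∀ D : Col (PP₁.card + PP₂.card) κ,
      qq (Fin.append (fun i => ((emb PP₁ i : ℕ) : ℝ)) (fun i => ((emb PP₂ i : ℕ) : ℝ))) D ≤ QT →
      |∑ a ∈ 𝒜 with (∀ i, D i ≠ none →
        (Fin.append (colh PP₁ hit a) (colh PP₂ hit a) : Col (PP₁.card + PP₂.card) κ) i =
          D i), (1:ℝ) -
        N * nu (Fin.append (fun i => dn r (emb PP₁ i)) (fun i => dn r (emb PP₂ i))) D| ≤
      Err := by
    intro D hD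
    rw [split_qq, ← TT_prod PP₁ (fstc D), ← TT_prod PP₂ (sndc D)] at hD
    have hdT : Disjoint (TT PP₁ (fstc D)) (TT PP₂ (sndc D)) := by
      rw [Finset.disjoint_left]
      intro p hp hp'
      exact Finset.disjoint_left.1 hd (TT_mem hp) (TT_mem hp')
    rw [← Finset.prod_union hdT] at hD
    have h1 := hcnt (TT PP₁ (fstc D) ∪ TT PP₂ (sndc D))
      (fun p => if p ∈ PP₁ then sT PP₁ (fstc D) p else sT PP₂ (sndc D) p) hD
      (by
        intro p hp
        rcases Finset.mem_union.1 hp with h | h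
        · have := hm₁ p (TT_mem h)
          exact ⟨this.1, this.2.1⟩
        · have := hm₂ p (TT_mem h)
          exact ⟨this.1, lt_of_le_of_lt hwy this.2.1⟩)
    have h2 : (𝒜.filter (fun a => ∀ i, D i ≠ none →
        (Fin.append (colh PP₁ hit a) (colh PP₂ hit a) : Col (PP₁.card + PP₂.card) κ) i = D i)) =
        𝒜.filter (fun a => ∀ p ∈ TT PP₁ (fstc D) ∪ TT PP₂ (sndc D), hit p a
          (if p ∈ PP₁ then sT PP₁ (fstc D) p else sT PP₂ (sndc D) p)) := by
      apply Finset.filter_congr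
      intro a _
      rw [split_event, event_iff' hu₁, event_iff' hu₂]
      constructor
      · rintro ⟨g1, g2⟩ p hp
        rcases Finset.mem_union.1 hp with h | h
        · rw [if_pos (TT_mem h)]
          exact g1 p h
        · rw [if_neg (fun h' => Finset.disjoint_left.1 hd h' (TT_mem h))]
          exact g2 p h
      · intro g
        refine ⟨fun p hp => ?_, fun p hp => ?_⟩
        · have := g p (Finset.mem_union_left _ hp)
          rwa [if_pos (TT_mem hp)] at this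
        · have := g p (Finset.mem_union_right _ hp)
          rwa [if_neg (fun h' => Finset.disjoint_left.1 hd h' (TT_mem hp))] at this
    rw [h2, Finset.sum_const, nsmul_eq_mul, mul_one, split_nu, ← TT_nu PP₁ (dn r), ← TT_nu PP₂ (dn r),
      ← Finset.prod_union hdT]
    refine le_trans (le_of_eq ?_) h1
    congr!
  have c2 : ∀ i, 3 * 3 * dn r (emb PP₂ i) ≤ 1 := fun i => by
    have h1 := hgy i
    have h2 : 9 * (dd / y) ≤ 1 := by
      rw [mul_div_assoc', div_le_one hy0]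
      exact hdy
    linarith
  have c3 : ∀ i, (Fintype.card κ : ℝ) * dn r (emb PP₂ i) ≤ 1 := fun i => by
    rw [hu]
    calc u * dn r (emb PP₂ i) ≤ u * (dd / y) := mul_le_mul_of_nonneg_left (hgy i) hu0
      _ ≤ 1 := by
          rw [mul_div_assoc', div_le_one hy0]
          nlinarith
  have c3' : ∀ i, (Fintype.card κ : ℝ) * dn r (emb PP₁ i) ≤ 1 / 2 := fun i => by
    rw [hu]
    calc u * dn r (emb PP₁ i) ≤ u * (dd / w) := mul_le_mul_of_nonneg_left (hgw i) hu0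
      _ ≤ 1 / 2 := by
          rw [mul_div_assoc', div_le_div_iff₀ hw0 (by norm_num)]
          linarith
  have hu1 : 1 ≤ u := by
    rw [← hu]
    have : 1 ≤ Fintype.card κ := Fintype.card_pos
    exact_mod_cast this
  set ρ : ℝ := rho (fun i => dn r (emb PP₁ i)) 1 with hρ
  have c9 : 0 ≤ ρ := by
    rw [hρ]
    unfold rho
    apply Finset.prod_nonneg
    intro i _
    push_cast
    have h1 := c3' i
    rw [hu] at h1
    have h2 := dn_nonneg r (emb PP₁ i)
    nlinarith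
  have hρ0 : 0 ≤ u * ρ := mul_nonneg hu0 c9
  have hlam0 : 0 ≤ lam := hρ0.trans hlam
  have hG20 : Real.exp (20 * ∑ i, dn r (emb PP₂ i)) ≤ Real.exp (20 * G₂) := by
    apply Real.exp_le_exp.2
    linarith
  have c5 : 2 * ((Fintype.card κ : ℝ) * ρ) *
      ((1 / 3) ^ J * Real.exp (20 * ∑ i, dn r (emb PP₂ i))) ≤ 1 / 12 := by
    refine le_trans ?_ hmom
    rw [hu]
    apply mul_le_mul _ _ (by positivity) (by positivity)
    · linarith
    · exact mul_le_mul_of_nonneg_left hG20 (by positivity)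
  have c5' : 2 * ((Fintype.card κ : ℝ) * ρ) *
      Real.exp (20 * ∑ i, dn r (emb PP₂ i)) ≤ R₂ / 12 := by
    refine le_trans ?_ hpen
    rw [hu]
    apply mul_le_mul _ hG20 (by positivity) (by positivity)
    linarith
  have hlogz : 0 < Real.log z := Real.log_pos hz1
  have hExp : Real.exp (η * ((1 + η) * (Fintype.card κ : ℝ) *
      (ρ * K) / Real.log z - Real.log (Q / z) / Real.log z)) ≤
      Real.exp (η * ((1 + η) * (lam * K) / Real.log z -
      Real.log (Q / z) / Real.log z)) := by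
    apply Real.exp_le_exp.2
    apply mul_le_mul_of_nonneg_left _ hη0.le
    apply sub_le_sub_right
    apply div_le_div_of_nonneg_right _ hlogz.le
    rw [hu]
    have hK := H.K0
    have e1 := mul_le_mul_of_nonneg_right hlam (mul_nonneg (show (0:ℝ) ≤ 1 + η by linarith) hK)
    calc (1 + η) * u * (ρ * K) = u * ρ * ((1 + η) * K) := by ring
      _ ≤ lam * ((1 + η) * K) := e1
      _ = _ := by ring
  have c7 : 4 * ((Fintype.card κ : ℝ) * ρ) * (τ + (δ ^ 2 +
      Real.exp (η * ((1 + η) * (Fintype.card κ : ℝ) *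
      (ρ * K) / Real.log z - Real.log (Q / z) / Real.log z)))) ≤ 1 / 12 := by
    refine le_trans ?_ htail
    apply mul_le_mul
    · rw [hu]; linarith
    · linarith
    · positivity
    · positivity
  have c7' : Real.exp (η * ((1 + η) * (Fintype.card κ : ℝ) *
      (ρ * K) / Real.log z - Real.log (Q / z) / Real.log z)) ≤ 1 / 8 := hExp.trans hE8
  have c8 : (Fintype.card κ : ℝ) * δ ≤ 1 / 4 := by rw [hu]; exact huδ
  have c10 : (Fintype.card κ : ℝ) * ∑ i, dn r (emb PP₂ i) ≤ T := by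
    rw [hu]
    exact (mul_le_mul_of_nonneg_left hG₂ hu0).trans hT
  have hQT0 : 0 ≤ QT := le_trans (by positivity) hQT
  have hsumEr : ∑ s : Finset (Fin (PP₁.card + PP₂.card)) with
      ∏ i ∈ s, (Fin.append (fun i => ((emb PP₁ i : ℕ) : ℝ)) (fun i => ((emb PP₂ i : ℕ) : ℝ)) :
      Fin (PP₁.card + PP₂.card) → ℝ) i ≤ QT, Err ≤ QT * Err := by
    rw [Finset.sum_const, nsmul_eq_mul]
    apply mul_le_mul_of_nonneg_right _ hErr
    have e1 : (univ.filter (fun s : Finset (Fin (PP₁.card + PP₂.card)) =>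
        ∏ i ∈ s, (Fin.append (fun i => ((emb PP₁ i : ℕ) : ℝ)) (fun i => ((emb PP₂ i : ℕ) : ℝ)) :
        Fin (PP₁.card + PP₂.card) → ℝ) i ≤ QT)).card ≤ (Finset.Icc 1 ⌊QT⌋₊).card := by
      apply Finset.card_le_card_of_injOn (fun s => ∏ i ∈ s, E i)
      · intro s hs
        rw [Finset.mem_coe, Finset.mem_filter] at hs
        rw [Finset.mem_coe, Finset.mem_Icc]
        refine ⟨Finset.prod_pos fun i _ => (hEP i).pos, Nat.le_floor ?_⟩
        refine le_trans (le_of_eq ?_) hs.2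
        rw [Finset.prod_congr rfl fun i _ => hPE i]
        push_cast
        rfl
      · intro s _ t _ hst
        exact prod_primes_inj hEP hEinj hst
    rw [Nat.card_Icc] at e1
    calc ((univ.filter (fun s : Finset (Fin (PP₁.card + PP₂.card)) =>
        ∏ i ∈ s, (Fin.append (fun i => ((emb PP₁ i : ℕ) : ℝ)) (fun i => ((emb PP₂ i : ℕ) : ℝ)) :
        Fin (PP₁.card + PP₂.card) → ℝ) i ≤ QT)).card : ℝ) ≤ ((⌊QT⌋₊ + 1 - 1 : ℕ) : ℝ) := by
          exact_mod_cast e1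
      _ = (⌊QT⌋₊ : ℝ) := by rw [Nat.add_sub_cancel]
      _ ≤ QT := Nat.floor_le hQT0
  have hMF : 0 ≤ MF u U T MR rr JR J₂ J := by
    unfold MF MG
    have : 0 ≤ U := by linarith
    have : 0 ≤ T := by linarith
    positivity
  have hmain := core6 (κ := κ) 𝒜 (fun _ => (1:ℝ)) (fun _ _ => zero_le_one)
    (fun a => (Fin.append (colh PP₁ hit a) (colh PP₂ hit a) : Col (PP₁.card + PP₂.card) κ))
    (fun i => ((emb PP₁ i : ℕ) : ℝ)) (fun i => by have := hPw i; linarith)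
    H (fun i => dn r (emb PP₁ i)) R m τ HR hτ0 hτ1 MR QR JR hMR hQR hRL
    Q δ N η R₂ z T U QT J m₀ rr J₂ hJ hm₀ hN hQ hη0 hη1
    (fun i => dn_nonneg _ _) c3' c9 c2 c3 hsupp c8
    hr hrm hR₂ hcard c7' c7 c5 c5' hJ₂' hT1 c10 hU1 (by rw [hu]; exact hU) hz1.le
    (fun i => (hm₂ _ (emb_mem PP₂ i)).2.2.1) hQT
    (fun s => Err) (fun s => hErr) hevent
    (by
      rw [hu]
      exact (mul_le_mul_of_nonneg_left hsumEr hMF).trans hfin)
  refine hmain.trans ?_
  have hA1 : ∑ a ∈ 𝒜 with (∀ k, ∃ i,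
      (Fin.append (colh PP₁ hit a) (colh PP₂ hit a) : Col (PP₁.card + PP₂.card) κ) i =
        some k), (1:ℝ) ≤
      ((𝒜.filter (fun a => ∀ k : κ, ∃ p : ℕ, p.Prime ∧ w < p ∧
      (p : ℝ) ≤ z ∧ hit p a k)).card : ℝ) := by
    rw [Finset.sum_const, nsmul_eq_mul, mul_one]
    have : (𝒜.filter (fun a => ∀ k, ∃ i,
      (Fin.append (colh PP₁ hit a) (colh PP₂ hit a) : Col (PP₁.card + PP₂.card) κ) i =
        some k)).card ≤ (𝒜.filter (fun a => ∀ k : κ, ∃ p : ℕ, p.Prime ∧ w < p ∧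
      (p : ℝ) ≤ z ∧ hit p a k)).card := by
      apply Finset.card_le_card
      intro a ha
      rw [Finset.mem_filter] at ha ⊢
      refine ⟨ha.1, fun k => ?_⟩
      obtain ⟨i, hi⟩ := ha.2 k
      revert hi
      refine Fin.addCases (fun j hj => ?_) (fun j hj => ?_) i
      · rw [Fin.append_left] at hj
        have h1 := (colh_eq hu₁ a j k).mp hj
        have h2 := hm₁ _ (emb_mem PP₁ j)
        exact ⟨emb PP₁ j, h2.1, h2.2.1, h2.2.2.1.trans hyz, h1⟩
      · rw [Fin.append_right] at hj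
        have h1 := (colh_eq hu₂ a j k).mp hj
        have h2 := hm₂ _ (emb_mem PP₂ j)
        exact ⟨emb PP₂ j, h2.1, lt_of_le_of_lt hwy h2.2.1, h2.2.2.1, h1⟩
    exact_mod_cast this
  apply mul_le_mul hA1 _ (by positivity) (Nat.cast_nonneg _)
  have hR20 : 0 ≤ R₂ + 1 := by linarith
  apply pow_le_pow_left₀ (by positivity)
  apply mul_le_mul_of_nonneg_left _ (by norm_num)
  apply pow_le_pow_left₀ (by positivity)
  have h5 : Real.exp (∑ i, dn r (emb PP₂ i)) ≤ Real.exp G₂ := Real.exp_le_exp.2 hG₂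
  have h6 : 0 ≤ ((J : ℝ) + 2) ^ (2 * J) * (R₂ + 1) := by positivity
  have h7 := mul_le_mul_of_nonneg_right h5 h6
  linarith

end Pool.Agent.K4H19.PF
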