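import Pool.Agent.K4H19.FQ.Cov6
import Pool.Agent.K4H19.PF.Cover7

set_option autoImplicit false
set_option linter.unusedSectionVars false
set_option linter.unusedVariables false

/-! # The covering theorem with several classes for each prime: choice of the parameters -/

namespace Pool.Agent.K4H19.PF

open Finset Filter Pool.Agent.H256R2.SC Pool.Agent.Y831.RC Pool.Agent.K4H19.FQ
open Pool.Agent.H474R2.PG (Sg)

open scoped Classical

theorem PR'_subset (r : ℕ → ℕ) (w y : ℝ) : PR' r w y ⊆ PS w y ∅ := by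
  intro p hp
  unfold PR' Pool.Agent.H474R2.PG.PS Pool.Agent.H474R2.PG.PR at hp
  rw [Finset.mem_filter, Finset.mem_filter] at hp
  unfold PS
  rw [Finset.mem_filter]
  exact ⟨hp.1.1, hp.1.2, hp.2.1, by simp⟩

theorem sum_emb (r : ℕ → ℕ) {y z : ℝ} (hy : 0 ≤ y) (hyz : y ≤ z) :
    ∑ i, dn r (emb (PR' r y z) i) = Sg r z - Sg r y := by
  rw [← Pool.Agent.H474R2.PG.RoughAux.sum_PS r hy hyz]
  have h2 : PR' r y z = univ.map (emb (PR' r y z)) := by
    ext p
    rw [Finset.mem_map]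
    constructor
    · intro hp
      obtain ⟨i, hi⟩ := emb_surj (PR' r y z) hp
      exact ⟨i, Finset.mem_univ _, hi⟩
    · rintro ⟨i, _, rfl⟩
      exact emb_mem (PR' r y z) i
  have h3 : ∑ p ∈ PR' r y z, dn r p = ∑ i, dn r (emb (PR' r y z) i) := by
    conv_lhs => rw [h2]
    rw [Finset.sum_map]
  rw [← h3]
  rfl

/-- `ρ₁ ≤ exp (2C) log w / log y` -/
theorem rho7 (r : ℕ → ℕ) (C w y : ℝ) (hM : ∀ w : ℝ, 3 ≤ w → |Sg r w - Real.log (Real.log w)| ≤ C)
    (hw : 3 ≤ w) (hwy : w ≤ y) (hd : ∀ i, dn r (emb (PR' r w y) i) ≤ 1) :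
    rho (fun i => dn r (emb (PR' r w y) i)) 1 ≤
      Real.exp (2 * C) * (Real.log w / Real.log y) := by
  have hy3 : 3 ≤ y := hw.trans hwy
  have hlw : 0 < Real.log w := Real.log_pos (by linarith)
  have hly : 0 < Real.log y := Real.log_pos (by linarith)
  have h1 : rho (fun i => dn r (emb (PR' r w y) i)) 1 ≤
      Real.exp (-∑ i, dn r (emb (PR' r w y) i)) := by
    unfold rho
    rw [← Finset.sum_neg_distrib, Real.exp_sum]
    apply Finset.prod_le_prod
    · intro i _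
      have := hd i
      push_cast
      linarith
    · intro i _
      have := Real.add_one_le_exp (-(dn r (emb (PR' r w y) i)))
      push_cast
      linarith
  refine h1.trans ?_
  rw [sum_emb r (by linarith) hwy]
  have e1 := (abs_le.1 (hM w hw)).2
  have e2 := (abs_le.1 (hM y hy3)).1
  have e3 : Real.exp (2 * C) * (Real.log w / Real.log y) =
      Real.exp (2 * C + (Real.log (Real.log w) - Real.log (Real.log y))) := by
    rw [Real.exp_add, Real.exp_sub, Real.exp_log hlw, Real.exp_log hly]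
  rw [e3]
  apply Real.exp_le_exp.2
  linarith

theorem cov7_at (r : ℕ → ℕ) (d B A : ℕ) (hd : 1 ≤ d) (hrd : ∀ p : ℕ, p.Prime → B < p → r p ≤ d)
    (C c₂ Y₀ ε K₀ M₀ C₁ c₃ : ℝ) (hC : 0 ≤ C)
    (hM : ∀ w : ℝ, 3 ≤ w → |Sg r w - Real.log (Real.log w)| ≤ C)
    (hc₂ : 0 < c₂) (hY₀ : 3 ≤ Y₀) (hc₃ : c₃ = c₂ * Real.exp (-C))
    (hRL : ∀ y z x : ℝ, Y₀ ≤ y → y ≤ x → x ≤ z →
      c₂ * Real.log x * Real.exp (-(Sg r y)) - 1 ≤
        ∑ s ∈ ((Pool.Agent.H474R2.PG.PS r y z).powerset.filter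
            (fun s : Finset ℕ => s.Nonempty ∧ ∏ p ∈ s, (p : ℝ) ≤ x)),
          ∏ p ∈ s, (r p : ℝ) / (p : ℝ))
    (hA : 4 ≤ A) (hε : 0 < ε) (hε4 : ε ≤ 1 / 8) (hC₁ : 0 < C₁)
    (hBH : ∀ (w y : ℝ) (b₀ : ℕ) (m τ : ℝ) (κ : Type) [Fintype κ] [DecidableEq κ],
      12 ≤ w → C₁ ≤ Real.log w → w ≤ y → Even b₀ →
      2 * (Fintype.card κ : ℝ) * d ≤ w → 0 ≤ m → τ ≤ 1 →
      m * (1 / 3) ^ b₀ ≤ Real.exp (-(130 * d)) * τ →
      ∀ PP : Finset ℕ, PP ⊆ PS w y ∅ → (∀ p ∈ PP, (r p : ℝ) ≤ d) →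
      ∃ R : κ → Col PP.card κ → ℝ,
        BHyp (fun i => dn r (emb PP i)) R m τ ∧
        ∀ k, MB (fun i => ((emb PP i : ℕ) : ℝ)) (4 ^ (nB w y * (nB w y * (b₀ + nB w y))))
          (Real.exp (Real.log y * (2 * b₀ + 4))) (nB w y * (b₀ + nB w y)) (R k))
    (hK1 : 1000 ≤ K₀) (hK2 : 100 / ε ^ 2 ≤ K₀) (hK3 : 300 / ε ≤ K₀) (hK4 : 130 * (d:ℝ) ≤ K₀)
    (hK5 : 72 * c₃ ≤ K₀) (hK6 : 4 * Real.exp (2 * C) / (c₃ * ε) ≤ K₀) (hK7 : 40 * C ≤ K₀)
    (hM1 : 12 ≤ M₀) (hM2 : Y₀ ≤ M₀) (hM3 : (B:ℝ) ≤ M₀) (hM4 : 9 * (d:ℝ) ≤ M₀)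
    (hM5 : Real.exp C₁ ≤ M₀) (hM6 : (A:ℝ) ≤ M₀)
    (L e : ℝ) (he1 : K₀ ≤ e) (he3 : K₀ * e ^ 3 ≤ Real.exp e) (helog : Real.log (K₀ * e) ≤ e / K₀)
    (a1 : M₀ ≤ L) (a2 : 1 ≤ Real.log L) (a4 : Real.log L * M₀ ≤ L)
    (heu : e ≤ (1 - ε) * Real.log L)
    (b1 : M₀ * Real.log L ≤ L * Real.exp (-e) / e ^ 2)
    (κ : Type) [Fintype κ] [DecidableEq κ] [Nonempty κ]
    (hκ1 : (Fintype.card κ : ℝ) ≤ e * L / Real.log L)
    (hκ2 : (Fintype.card κ : ℝ) * (Real.exp (2 * C) * (A * Real.log L)) ≤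
      (1 / 2 - 3 * ε) * (c₃ * (e * L)))
    (hit : ℕ → ℤ → κ → Prop)
    (huniq : ∀ p : ℕ, p.Prime → L ^ A < p → (p : ℝ) ≤ Real.exp (ε ^ 2 * L / (100 * e)) →
      ∀ a k l, hit p a k → hit p a l → k = l)
    (𝒜 : Finset ℤ) (N Err : ℝ) (hN : 0 < N) (hErr : 0 ≤ Err)
    (hcnt : ∀ (T : Finset ℕ) (s : ℕ → κ), (∏ p ∈ T, (p : ℝ)) ≤ Real.exp L →
      (∀ p ∈ T, p.Prime ∧ L ^ A < (p:ℝ)) →
      |((𝒜.filter (fun a => ∀ p ∈ T, hit p a (s p))).card : ℝ) - N * ∏ p ∈ T, dn r p| ≤ Err)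
    (hfin : Real.exp (1000 * (Real.exp (2 * e) * (Real.log L) ^ 3)) *
      (Real.exp L * Err) ≤ N / 8) :
    3 / 8 * N ≤ ((𝒜.filter (fun a => ∀ k : κ, ∃ p : ℕ, p.Prime ∧
      L ^ A < p ∧ (p : ℝ) ≤ Real.exp (ε ^ 2 * L / (100 * e)) ∧ hit p a k)).card : ℝ) *
      Real.exp (e ^ 2 * Real.exp e) := by
  have he1000 : 1000 ≤ e := by linarith only [hK1, he1]
  have he0 : 0 < e := by linarith only [he1000]
  have he1' : 1 ≤ e := by linarith only [he1000]
  have hε4' : ε ≤ 1 / 4 := by linarith only [hε4]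
  set l : ℝ := Real.log L with hl
  have hL12 : 12 ≤ L := by linarith only [hM1, a1]
  have hL2 : 2 ≤ L := by linarith only [hL12]
  have hL0 : 0 < L := by linarith only [hL2]
  have hL1 : 1 ≤ L := by linarith only [hL2]
  have hl0 : 0 ≤ l := by linarith only [a2]
  have hel : e ≤ l := by
    have : 0 ≤ ε * l := mul_nonneg hε.le hl0
    linarith only [this, heu]
  have hM0 : 0 < M₀ := by linarith only [hM1]
  have hM8 : 8 ≤ M₀ := by linarith only [hM1]
  have hlL : l ≤ L := by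
    have h1 : 12 * l ≤ M₀ * l := q_mul hM1 hl0
    linarith only [h1, a4, hl0]
  have hExpL : Real.exp e ≤ L := by
    rw [← Real.exp_log hL0]
    exact Real.exp_le_exp.2 hel
  have hc₃0 : 0 < c₃ := by rw [hc₃]; positivity
  have hdR : (1:ℝ) ≤ d := by exact_mod_cast hd
  have hdL : 9 * (d:ℝ) ≤ L := hM4.trans a1
  have he3' : e ^ 3 ≤ Real.exp e := q_cube hK1 he1' he3
  have he30 : 0 ≤ e ^ 3 := by positivity
  have h72 : 72 * c₃ * e ^ 3 ≤ Real.exp e := (q_mul hK5 he30).trans he3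
  have h12 : 12 * c₃ * e ^ 3 ≤ Real.exp e := by
    have : 12 * c₃ ≤ K₀ := by linarith only [hK5, hc₃0]
    exact (q_mul this he30).trans he3
  set Y : ℝ := L * Real.exp (-e) / e ^ 2 with hY
  set Z : ℝ := ε ^ 2 * L / (100 * e) with hZ
  obtain ⟨hYZ, hvZ, hZ0, hY0, _, _⟩ := p_YZ hε hε4' hL0 (hK2.trans he1) he3' hY hZ
  have hYM : M₀ ≤ Y := by
    have : M₀ * 1 ≤ M₀ * l := mul_le_mul_of_nonneg_left a2 hM0.le
    linarith only [this, b1]
  have hlog1 : Real.log e ≤ e / 20 := q_log1 hK1 he1' helog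
  have hlog2 : Real.log (100 * e / ε ^ 2) ≤ ε / 4 * e := q_log2 hε hK1 he1' helog hK2 hK3
  set m₀ : ℕ := ⌈20 * e⌉₊ with hm₀
  have hm₀1 : 20 * e ≤ m₀ := Nat.le_ceil _
  have hm₀2 : (m₀ : ℝ) < 20 * e + 1 := Nat.ceil_lt_add_one (by positivity)
  have hyL6 : L ^ 6 ≤ Real.exp Y := by
    apply p_pow hL1 6
    push_cast
    exact (q_mul (by linarith only [hM1] : (6:ℝ) ≤ M₀) hl0).trans b1
  set w : ℝ := L ^ A with hw
  have hwL4 : L ^ 4 ≤ w := pow_le_pow_right₀ hL1 hA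
  have hL14 : L ≤ L ^ 4 := by
    calc L = L ^ 1 := (pow_one L).symm
      _ ≤ L ^ 4 := pow_le_pow_right₀ hL1 (by norm_num)
  have hwL : L ≤ w := hL14.trans hwL4
  have hw12 : 12 ≤ w := by linarith only [hwL, hL12]
  have hw2 : 2 ≤ w := by linarith only [hwL, hL2]
  have hw3 : 3 ≤ w := by linarith only [hw12]
  have hlw : Real.log w = A * l := by rw [hw, Real.log_pow]
  have hAR : (4:ℝ) ≤ A := by exact_mod_cast hA
  have hlwl : l ≤ Real.log w := by
    rw [hlw]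
    nlinarith only [hAR, hl0]
  have hlw1 : 1 ≤ Real.log w := a2.trans hlwl
  have hwy : w ≤ Real.exp Y := by
    apply p_pow hL1 A
    exact (q_mul hM6 hl0).trans b1
  set y : ℝ := Real.exp Y with hy
  set z : ℝ := Real.exp Z with hz
  have hly : Real.log y = Y := Real.log_exp Y
  have hlz : Real.log z = Z := Real.log_exp Z
  have hyY : Y + 1 ≤ y := Real.add_one_le_exp Y
  have hyz : y ≤ z := Real.exp_le_exp.2 hYZ
  have hy10 : 10 ≤ y := by linarith only [hyY, hYM, hM1]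
  have hy3 : 3 ≤ y := by linarith only [hy10]
  have hz3 : 3 ≤ z := hy3.trans hyz
  have hz1 : 1 < z := by linarith only [hy10, hyz]
  have hyY₀ : Y₀ ≤ y := by linarith only [hM2, hYM, hyY]
  have hlyy : Real.log (Real.log y) = Real.log Y := by rw [hly]
  have hrd' : ∀ p : ℕ, p.Prime → w < (p:ℝ) → (r p : ℝ) ≤ d := by
    intro p hp hwp
    have h1 : (B:ℝ) < p := by linarith only [hM3, a1, hwL, hwp]
    have h2 : B < p := by exact_mod_cast h1
    exact_mod_cast hrd p hp h2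
  set u : ℝ := (Fintype.card κ : ℝ) with hu
  have hu0 : 0 ≤ u := Nat.cast_nonneg _
  have huL : u ≤ L := by
    refine hκ1.trans ?_
    rw [div_le_iff₀ (by linarith only [a2])]
    nlinarith only [hel, hL0]
  have hu2 : u ≤ L ^ 2 / 2 := by nlinarith only [huL, hL2]
  -- the second block
  set V : ℝ := c₃ / Y with hV
  have hV0 : 0 < V := by positivity
  have hVY : V * Y = c₃ := by rw [hV]; field_simp
  set v₀ : ℝ := L * Real.exp (-e) with hv₀
  have hv₀0 : 0 < v₀ := by positivity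
  have hYv : v₀ = Y * e ^ 2 := by rw [hY]; field_simp
  have hYv' : Y ≤ v₀ := by rw [hYv]; exact q_Y hY0 he1'
  have hG₂ : ∑ i, dn r (emb (PR' r y z) i) ≤ 11 / 10 * e := by
    rw [sum_emb r (by linarith only [hy10]) hyz]
    have e1 := (abs_le.1 (hM z hz3)).2
    have e2 := (abs_le.1 (hM y hy3)).1
    rw [hlyy] at e2
    rw [hlz] at e1
    have e3 := p_G2 hε hε4' hL0 he1' hY0 hY hZ hlog1 (2 * C * Y) (by
      rw [mul_div_assoc, div_self hY0.ne', mul_one]
      linarith only [hK7, he1])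
    rw [mul_div_assoc, div_self hY0.ne', mul_one, Real.log_div hZ0.ne' hY0.ne'] at e3
    linarith only [e1, e2, e3]
  have hB1 : ∑ s : Finset (Fin (PR' r y z).card) with
      Real.log (∏ i ∈ s, ((emb (PR' r y z) i : ℕ) : ℝ)) < v₀,
      ∏ i ∈ s, dn r (emb (PR' r y z) i) ≤ Real.exp (2 * C) * e ^ 2 := by
    refine (small_r r y z v₀ (by linarith only [hz3]) (by linarith only [hy3])).trans ?_
    have hyv : y ≤ Real.exp v₀ := Real.exp_le_exp.2 hYv'
    have e0 : ∑ p ∈ PR' r y (Real.exp v₀), dn r p = Sg r (Real.exp v₀) - Sg r y :=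
      Pool.Agent.H474R2.PG.RoughAux.sum_PS r (by linarith only [hy3]) hyv
    rw [e0]
    have e1 := (abs_le.1 (hM (Real.exp v₀) (hy3.trans hyv))).2
    have e2 := (abs_le.1 (hM y hy3)).1
    rw [hlyy] at e2
    rw [Real.log_exp] at e1
    have e3 : Real.exp (2 * C) * e ^ 2 = Real.exp (2 * C + (Real.log v₀ - Real.log Y)) := by
      rw [Real.exp_add, Real.exp_sub, Real.exp_log hv₀0, Real.exp_log hY0, hYv]
      field_simp
    rw [e3]
    apply Real.exp_le_exp.2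
    linarith only [e1, e2]
  have hprof : ∃ h, HypS (fun i => ((emb (PR' r y z) i : ℕ) : ℝ))
      (fun i => dn r (emb (PR' r y z) i)) h z (1 / ((1 - ε) * V * e)) v₀ ∧
      ∀ s, h s ≠ 0 → s.card ≤ m₀ := by
    have h1ε : 0 < 1 - ε := by linarith only [hε4]
    have hKe : 4 * Real.exp (2 * C) ≤ e * (c₃ * ε) := by
      have := hK6.trans he1
      rwa [div_le_iff₀ (by positivity)] at this
    have hEC : 1 ≤ Real.exp (2 * C) := Real.one_le_exp (by positivity)
    refine profR r m₀ y z v₀ ((1 - ε) * V * e) (Real.exp (2 * C) * e ^ 2) (11 / 10 * e) V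
      (by linarith only [hy3]) hz1 hv₀0 (by rw [hly]; exact hYv') (by rw [hlz]; exact hvZ)
      (by positivity) ?_ hB1 hG₂ ?_ ?_
    · intro x hx1 hx2
      refine le_trans ?_ (hRL y z x hyY₀ hx1 hx2)
      have e1 := (abs_le.1 (hM y hy3)).2
      rw [hlyy] at e1
      have e2 : Real.exp (-C) / Y ≤ Real.exp (-(Sg r y)) := by
        have e3 : Real.exp (-C) / Y = Real.exp (-C - Real.log Y) := by
          rw [Real.exp_sub, Real.exp_log hY0]
        rw [e3]
        apply Real.exp_le_exp.2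
        linarith only [e1]
      have e4 : 0 ≤ Real.log x := Real.log_nonneg (by linarith only [hx1, hy3])
      have e5 : V * Real.log x ≤ c₂ * Real.log x * Real.exp (-(Sg r y)) := by
        calc V * Real.log x = c₂ * Real.log x * (Real.exp (-C) / Y) := by
              rw [hV, hc₃]; ring
          _ ≤ _ := mul_le_mul_of_nonneg_left e2 (by positivity)
      linarith only [e5]
    · have hlgv : (1 - ε / 4) * e ≤ Real.log (Real.log z / v₀) := by
        rw [hlz]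
        exact p_logZv hε hL0 he0 hZ hlog2
      have e1 : V * ((1 - ε / 4) * e) ≤ V * Real.log (Real.log z / v₀) :=
        mul_le_mul_of_nonneg_left hlgv hV0.le
      have e2 : Real.exp (2 * C) * e ^ 2 / v₀ ≤ ε / 4 * (V * e) := by
        have g1 : Real.exp (2 * C) * e ^ 2 / v₀ = Real.exp (2 * C) / Y := by
          rw [hYv]; field_simp
        rw [g1, hV, div_le_iff₀ hY0]
        have g2 : ε / 4 * (c₃ / Y * e) * Y = ε / 4 * (c₃ * e) := by field_simp
        rw [g2]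
        linarith only [hKe]
      have e3 : Real.exp (3 * (11 / 10 * e) - m₀) / v₀ ≤ ε / 4 * (V * e) := by
        have g1 : Real.exp (3 * (11 / 10 * e) - m₀) ≤ 1 := by
          rw [Real.exp_le_one_iff]
          linarith only [hm₀1, he0]
        have g2 : Real.exp (3 * (11 / 10 * e) - m₀) / v₀ ≤ 1 / Y := by
          apply div_le_div₀ zero_le_one g1 hY0 hYv'
        refine g2.trans ?_
        rw [hV, div_le_iff₀ hY0]
        have g3 : ε / 4 * (c₃ / Y * e) * Y = ε / 4 * (c₃ * e) := by field_simp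
        rw [g3]
        linarith only [hKe, hEC]
      have e4 : 0 ≤ V * e := by positivity
      nlinarith only [e1, e2, e3, e4, hε]
    · have g1 : (1 - ε) * V * e * v₀ = (1 - ε) * (c₃ * e) * e ^ 2 := by
        rw [hYv, hV]
        field_simp
      rw [g1]
      apply mul_le_mul_of_nonneg_right _ (by positivity)
      have g2 : 0 ≤ c₃ * e := by positivity
      nlinarith only [hKe, hε4, hε, g2]
  -- `λ`
  set lam : ℝ := u * (Real.exp (2 * C) * (A * l)) / Y with hlam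
  have hlam0 : 0 ≤ lam := by
    have : (0:ℝ) ≤ A := by linarith only [hAR]
    positivity
  have hlam1 : lam ≤ (1 / 2 - 3 * ε) * (e * L * V) := by
    rw [hlam, div_le_iff₀ hY0]
    have g1 : (1 / 2 - 3 * ε) * (e * L * V) * Y = (1 / 2 - 3 * ε) * (c₃ * (e * L)) := by
      rw [hV]; field_simp
    rw [g1]
    exact hκ2
  have hLY : L = Y * e ^ 2 * Real.exp e := by
    rw [← hYv, hv₀, mul_assoc, ← Real.exp_add]
    simp
  have hlam2 : 2 * lam ≤ c₃ * e ^ 3 * Real.exp e := by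
    have g1 : 0 ≤ e * L * V := by positivity
    have g2 : 2 * lam ≤ e * L * V := by nlinarith only [hlam1, g1, hε]
    refine g2.trans (le_of_eq ?_)
    calc e * L * V = (V * Y) * (e ^ 3 * Real.exp e) := by
          conv_lhs => rw [hLY]
          ring
      _ = c₃ * (e ^ 3 * Real.exp e) := by rw [hVY]
      _ = _ := by ring
  have hwd : (d:ℝ) ≤ w := by linarith only [hdL, hdR, hwL]
  have hdn1 : ∀ i, dn r (emb (PR' r w y) i) ≤ 1 := by
    intro i
    obtain ⟨g1, g2, g3, g4⟩ := PR'_mem (by linarith only [hy3]) (emb_mem (PR' r w y) i)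
    unfold dn
    rw [div_le_one (by linarith only [g2, hw12])]
    exact (hrd' _ g1 g2).trans (hwd.trans g2.le)
  have hrho := rho7 r C w y hM hw3 hwy hdn1
  rw [hlw, hly] at hrho
  have hulam : u * rho (fun i => dn r (emb (PR' r w y) i)) 1 ≤ lam := by
    refine (mul_le_mul_of_nonneg_left hrho hu0).trans (le_of_eq ?_)
    rw [hlam]
    ring
  -- the parameters
  set J : ℕ := 2 * ⌈15 * e⌉₊ with hJ
  have hJe : Even J := even_two_mul _
  have hJ1 : 30 * e ≤ J := by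
    have := Nat.le_ceil (15 * e)
    rw [hJ]; push_cast; linarith only [this]
  have hJ2 : (J:ℝ) ≤ 30 * e + 2 := by
    have := (Nat.ceil_lt_add_one (show 0 ≤ 15 * e by positivity)).le
    rw [hJ]; push_cast; linarith only [this]
  have hm₀J : m₀ ≤ J := by
    have : (m₀:ℝ) ≤ J := by linarith only [hm₀2, hJ1, he1000]
    exact_mod_cast this
  set b₀ : ℕ := 2 * ⌈2 * e⌉₊ with hb₀
  have hb₀e : Even b₀ := even_two_mul _
  have hb₀1 : 4 * e ≤ b₀ := by
    have := Nat.le_ceil (2 * e)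
    rw [hb₀]; push_cast; linarith only [this]
  have hb₀2 : (b₀:ℝ) ≤ 4 * e + 2 := by
    have := (Nat.ceil_lt_add_one (show 0 ≤ 2 * e by positivity)).le
    rw [hb₀]; push_cast; linarith only [this]
  set Q : ℝ := Real.exp ((1 / 2 - ε) * L) with hQ
  have hlQ : Real.log Q = (1 / 2 - ε) * L := Real.log_exp _
  have hhalf : 0 ≤ 1 / 2 - ε := by linarith only [hε4]
  have hlQ0 : 0 ≤ (1 / 2 - ε) * L := mul_nonneg hhalf hL0.le
  have hQ1 : 1 ≤ Q := Real.one_le_exp hlQ0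
  set rr : ℕ := ⌈Real.log Q / v₀⌉₊ with hr
  have hr1 : Real.log Q / v₀ ≤ rr := Nat.le_ceil _
  have hrv : Real.log Q / v₀ ≤ Real.exp e / 2 := by
    rw [hlQ, hv₀]
    exact q_rv hε hL0
  have hexp1000 : 1001 ≤ Real.exp e := by
    have := Real.add_one_le_exp e
    linarith only [this, he1000]
  have hr2 : (rr:ℝ) ≤ Real.exp e / 2 + 1 := by
    have := (Nat.ceil_lt_add_one (show 0 ≤ Real.log Q / v₀ by
      apply div_nonneg _ hv₀0.le
      rw [hlQ]
      exact hlQ0)).le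
    linarith only [this, hrv]
  have hrm : (rr:ℝ) + 1 ≤ Real.exp e := by linarith only [hr2, hexp1000]
  have hre : (rr:ℝ) ≤ Real.exp e := by linarith only [hrm]
  -- the support in the second block
  set J₂ : ℕ := ⌈Real.log Q / Real.log y⌉₊ with hJ₂
  have hJ₂1 : Real.log Q / Real.log y ≤ J₂ := Nat.le_ceil _
  have hJ₂2 : (J₂:ℝ) ≤ Real.exp e * l ^ 2 := by
    have h1 : Real.log Q / Real.log y ≤ Real.exp e * e ^ 2 / 2 := by
      rw [hlQ, hly, div_le_iff₀ hY0]
      have h3 : Real.exp e * e ^ 2 / 2 * Y = L / 2 := by rw [hLY]; ring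
      rw [h3]
      have : 0 ≤ ε * L := mul_nonneg hε.le hL0.le
      linarith only [this]
    have h2 := (Nat.ceil_lt_add_one (show 0 ≤ Real.log Q / Real.log y by
      rw [hlQ, hly]
      exact div_nonneg hlQ0 hY0.le)).le
    have h3 : e ^ 2 ≤ l ^ 2 := pow_le_pow_left₀ he0.le hel 2
    have h4 : Real.exp e * e ^ 2 ≤ Real.exp e * l ^ 2 :=
      mul_le_mul_of_nonneg_left h3 (Real.exp_pos e).le
    have h5 : 2 ≤ Real.exp e * e ^ 2 := by
      have : 1 ≤ e ^ 2 := one_le_pow₀ he1'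
      nlinarith only [this, hexp1000]
    linarith only [h1, h2, h4, h5]
  have hC1l : C₁ ≤ l := by
    rw [hl, Real.le_log_iff_exp_le hL0]
    exact hM5.trans a1
  have huwd : 2 * u * d ≤ w := by
    have g1 : 2 * u * d ≤ 2 * L * L := by
      have g2 : (d:ℝ) ≤ L := by linarith only [hdL, hdR]
      have g3 : 2 * u ≤ 2 * L := by linarith only [huL]
      exact mul_le_mul g3 g2 (by linarith only [hdR]) (by linarith only [hL0])
    have g4 : 2 * L * L ≤ L ^ 4 := by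
      have g5 : L * L * 2 ≤ L * L * (L * L) :=
        mul_le_mul_of_nonneg_left (by nlinarith only [hL2]) (by positivity)
      calc 2 * L * L = L * L * 2 := by ring
        _ ≤ L * L * (L * L) := g5
        _ = L ^ 4 := by ring
    exact g1.trans (g4.trans hwL4)
  -- the first block
  obtain ⟨R, hR1, hR2⟩ := hBH w y b₀ (Real.exp e) (Real.exp (-(2 * e))) κ hw12
    (hC1l.trans hlwl) hwy hb₀e huwd (Real.exp_pos e).le
    (by rw [Real.exp_le_one_iff]; linarith only [he0])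
    (by
      have e1 := third_le_exp b₀ (4 * e) hb₀1
      calc Real.exp e * (1 / 3) ^ b₀ ≤ Real.exp e * Real.exp (-(4 * e)) :=
            mul_le_mul_of_nonneg_left e1 (Real.exp_pos e).le
        _ = Real.exp (e + -(4 * e)) := by rw [← Real.exp_add]
        _ ≤ Real.exp (-(130 * d) + -(2 * e)) := Real.exp_le_exp.2 (by linarith only [hK4, he1])
        _ = _ := by rw [← Real.exp_add])
    (PR' r w y) (PR'_subset r w y) (fun p hp => by
      obtain ⟨g1, g2, g3, g4⟩ := PR'_mem (by linarith only [hy3]) hp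
      exact hrd' p g1 g2)
  have hQz : Real.log (Q / z) = (1 / 2 - ε) * L - Z := by
    rw [Real.log_div (Real.exp_pos _).ne' (Real.exp_pos _).ne', hlQ, hlz]
  have hEE : Real.exp (ε * ((1 + ε) * (lam * (1 / ((1 - ε) * V * e))) / Real.log z -
      Real.log (Q / z) / Real.log z)) ≤ Real.exp (-(20 * e)) := by
    apply Real.exp_le_exp.2
    rw [hlz, hQz]
    exact p_exp hε hε4' hL1 he1' hV0 hZ lam hlam1
  have c1 : 2 * (Real.log Q / Real.log y * (d / y)) ≤ 1 / L ^ 4 := by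
    rw [hlQ, hly]
    have h2 : (1 / 2 - ε) * L / Y ≤ L / 2 := by
      have h3 : (1 / 2 - ε) * L / Y ≤ (1 / 2 - ε) * L :=
        div_le_self hlQ0 (by linarith only [hYM, hM1])
      have : 0 ≤ ε * L := mul_nonneg hε.le hL0.le
      linarith only [h3, this]
    have h4 : (d:ℝ) / y ≤ L / L ^ 6 :=
      div_le_div₀ hL0.le (by linarith only [hdL, hdR]) (by positivity) hyL6
    have h5 : (1 / 2 - ε) * L / Y * (d / y) ≤ L / 2 * (L / L ^ 6) :=
      mul_le_mul h2 h4 (by positivity) (by positivity)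
    calc 2 * ((1 / 2 - ε) * L / Y * (d / y)) ≤ 2 * (L / 2 * (L / L ^ 6)) :=
          mul_le_mul_of_nonneg_left h5 (by norm_num)
      _ = 1 / L ^ 4 := by field_simp
  have hnb : (nB w y : ℝ) ≤ 3 * l :=
    nB_le w y L hL1 a2 hlw1 (by rw [hly]; exact hY0.le) (by
      rw [hly, hY]
      have h1 : Real.exp (-e) ≤ 1 := by rw [Real.exp_le_one_iff]; linarith only [he0]
      have h2 : 1 ≤ e ^ 2 := one_le_pow₀ he1'
      rw [div_le_iff₀ (by positivity)]
      nlinarith only [h1, h2, hL0])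
  have hJR : ((nB w y * (b₀ + nB w y) : ℕ) : ℝ) ≤ 24 * l ^ 2 :=
    p_JR (nB w y) b₀ l e a2 hnb (by linarith only [hb₀2, he1000]) hel
  have hMF := MF_le u L l (Real.exp e) (nB w y) (nB w y * (b₀ + nB w y)) rr J₂ J hL1
    (Real.exp_log hL0).symm a2 (Real.one_le_exp he0.le) hu0 (by
      have : 0 ≤ L ^ 2 := by positivity
      linarith only [this, hu2]) hnb hJR hre hJ₂2 (by
      linarith only [hJ2, hel, he1000])
  have hE2 : (Real.exp e) ^ 2 = Real.exp (2 * e) := by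
    rw [← Real.exp_nat_mul]
    push_cast
    rfl
  rw [hE2] at hMF
  have hQT := p_QT hε hε4' hL2 (hK3.trans he1) (by linarith only [he1000]) hY hZ b₀ J rr hb₀2 hJ2 hre
  have hQTL : Real.exp ((1 - ε) * L) ≤ Real.exp L := by
    apply Real.exp_le_exp.2
    have : 0 ≤ ε * L := mul_nonneg hε.le hL0.le
    linarith only [this]
  have hlogy' : Real.log y * (2 * (b₀:ℝ) + 4) = Y * (2 * b₀ + 4) := by rw [hly]
  rw [hlogy'] at hR2
  have hfin' : MF u (L ^ 2) (L ^ 3) (4 ^ (nB w y * (nB w y * (b₀ + nB w y)))) rr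
      (nB w y * (b₀ + nB w y)) J₂ J * (Real.exp ((1 - ε) * L) * Err) ≤ N / 8 := by
    refine le_trans ?_ hfin
    apply mul_le_mul hMF _ (by positivity) (Real.exp_pos _).le
    exact mul_le_mul_of_nonneg_right hQTL hErr
  have hL2' : 1 ≤ L ^ 2 := one_le_pow₀ hL1
  have hL3' : 1 ≤ L ^ 3 := one_le_pow₀ hL1
  have hT : u * (11 / 10 * e) ≤ L ^ 3 := by
    have e1 : 11 / 10 * e ≤ 2 * L := by linarith only [hel, hlL, he0]
    have e2 : u * (11 / 10 * e) ≤ L ^ 2 / 2 * (2 * L) :=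
      mul_le_mul hu2 e1 (by positivity) (by positivity)
    refine e2.trans (le_of_eq ?_)
    ring
  have hdy : 9 * (d:ℝ) ≤ y := by
    have : L ≤ L ^ 6 := by
      calc L = L ^ 1 := (pow_one L).symm
        _ ≤ L ^ 6 := pow_le_pow_right₀ hL1 (by norm_num)
    linarith only [hdL, this, hyL6]
  have hmain := cover7 r d w y z (1 / ((1 - ε) * V * e)) Q (1 / L ^ 4) ε (11 / 10 * e) v₀
    (Real.exp e)
    (Real.exp (-(2 * e))) (Real.exp (24 * e)) (4 ^ (nB w y * (nB w y * (b₀ + nB w y))))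
    (Real.exp (Y * (2 * b₀ + 4))) (L ^ 3) (L ^ 2) (Real.exp ((1 - ε) * L)) lam Err
    (nB w y * (b₀ + nB w y)) J m₀ rr J₂ hJe hm₀J
    hw2 hwy hyz hz1 hQ1 hε (by linarith only [hε4]) hdR hrd' hG₂ hprof
    c1 κ u rfl (Real.exp_pos _).le (by rw [Real.exp_le_one_iff]; linarith only [he0])
    (one_le_pow₀ (by norm_num)) (Real.one_le_exp (by positivity)) ⟨R, hR1, hR2⟩
    hr1 hrm (Real.one_le_exp (by positivity)) huwd hdy
    (p_uδ hL2 u hu2) hulam
    (q_E8 he1' hEE)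
    (p_tail he1' hc₃0.le h72 lam hlam0 hlam2 hExpL _ hEE)
    (p_mom he1' hc₃0.le h12 lam hlam0 hlam2 J hJ1)
    (p_pen he1' hc₃0.le h12 lam hlam0 hlam2)
    hJ₂1 hL3' hT hL2' (by linarith only [hu2, hL2']) hQT
    𝒜 N hN hErr hit huniq
    (fun T s hT => hcnt T s (hT.trans hQTL)) hfin'
  refine hmain.trans ?_
  apply mul_le_mul_of_nonneg_left _ (Nat.cast_nonneg _)
  exact p_loss K₀ hK1 he1000 helog J rr hJ2 hre

end Pool.Agent.K4H19.PF
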