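import Pool.Agent.K4H19.PF.Cov7
import Pool.Agent.K4H19.PF.Count7
import Pool.Agent.H474R2.PG.NoColl
import Pool.Agent.H474R2.PG.Growth
import Pool.Agent.H474R2.GE.FA

set_option autoImplicit false
set_option linter.unusedSectionVars false
set_option linter.unusedVariables false

/-! # Frequency of long strings of composite values of a polynomial -/

namespace Pool.Agent.K4H19.PF

open Finset Filter Polynomial Pool.Agent.H256R2.SC Pool.Agent.Y831.RC Pool.Agent.K4H19.FQ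
open Pool.Agent.H474R2.PG (Sg rough_lower mertens_lower rho_le no_collision growth)
open Pool.Agent.H474R2.GE (mertens_rho good_classes SS prod_SS)

open scoped Classical

/-- the covering theorem with several classes for each prime -/
theorem cov7 (r : ℕ → ℕ) (d B A : ℕ) (hd : 1 ≤ d) (hrd : ∀ p : ℕ, p.Prime → B < p → r p ≤ d)
    (C c₂ Y₀ : ℝ) (hC : 0 ≤ C)
    (hM : ∀ w : ℝ, 3 ≤ w → |Sg r w - Real.log (Real.log w)| ≤ C)
    (hc₂ : 0 < c₂) (hY₀ : 3 ≤ Y₀)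
    (hRL : ∀ y z x : ℝ, Y₀ ≤ y → y ≤ x → x ≤ z →
      c₂ * Real.log x * Real.exp (-(Sg r y)) - 1 ≤
        ∑ s ∈ ((Pool.Agent.H474R2.PG.PS r y z).powerset.filter
            (fun s : Finset ℕ => s.Nonempty ∧ ∏ p ∈ s, (p : ℝ) ≤ x)),
          ∏ p ∈ s, (r p : ℝ) / (p : ℝ))
    (hA : 4 ≤ A) :
    ∃ c₀ e₀ L₀ : ℝ, 0 < c₀ ∧ 1 ≤ e₀ ∧ 12 ≤ L₀ ∧ ∀ L : ℝ, L₀ ≤ L → ∀ e : ℝ, e₀ ≤ e →
    e ≤ (1 / 4) * Real.log L →
    ∀ (κ : Type) [Fintype κ] [DecidableEq κ] [Nonempty κ],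
    (Fintype.card κ : ℝ) ≤ c₀ * (e * L / Real.log L) →
    ∀ (hit : ℕ → ℤ → κ → Prop),
    (∀ p : ℕ, p.Prime → L ^ A < p → ∀ a k l, hit p a k → hit p a l → k = l) →
    ∀ (𝒜 : Finset ℤ) (N Err : ℝ), 0 < N → 0 ≤ Err →
    (∀ (T : Finset ℕ) (s : ℕ → κ), (∏ p ∈ T, (p : ℝ)) ≤ Real.exp L →
      (∀ p ∈ T, p.Prime ∧ L ^ A < (p:ℝ)) →
      |((𝒜.filter (fun a => ∀ p ∈ T, hit p a (s p))).card : ℝ) - N * ∏ p ∈ T, dn r p| ≤ Err) →
    Real.exp (2 * L) * Err ≤ N / 8 →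
    3 / 8 * N ≤ ((𝒜.filter (fun a => ∀ k : κ, ∃ p : ℕ, p.Prime ∧
      L ^ A < p ∧ (p : ℝ) ≤ Real.exp L ∧ hit p a k)).card : ℝ) *
      Real.exp (e ^ 2 * Real.exp e) := by
  have hdR : (1:ℝ) ≤ d := by exact_mod_cast hd
  obtain ⟨C₁, hC₁, hBH⟩ := BHyp7 r d hdR
  obtain ⟨c₃, hc₃⟩ : ∃ c₃ : ℝ, c₃ = c₂ * Real.exp (-C) := ⟨_, rfl⟩
  have hc₃0 : 0 < c₃ := by rw [hc₃]; positivity
  obtain ⟨K₀, hK₀⟩ : ∃ K₀ : ℝ, K₀ = 1000 + 100 / (1 / 8) ^ 2 + 300 / (1 / 8) + 130 * (d:ℝ) +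
    72 * c₃ + 4 * Real.exp (2 * C) / (c₃ * (1 / 8)) + 40 * C := ⟨_, rfl⟩
  obtain ⟨M₀, hM₀⟩ : ∃ M₀ : ℝ, M₀ = 12 + Y₀ + (B:ℝ) + 9 * (d:ℝ) + Real.exp C₁ + (A:ℝ) := ⟨_, rfl⟩
  have p1 : (0:ℝ) < 100 / (1 / 8) ^ 2 := by positivity
  have p2 : (0:ℝ) < 300 / (1 / 8) := by positivity
  have p3 : 0 < 4 * Real.exp (2 * C) / (c₃ * (1 / 8)) := by positivity
  have p4 : (0:ℝ) ≤ B := Nat.cast_nonneg _
  have p5 : (0:ℝ) ≤ A := Nat.cast_nonneg _
  have p6 := Real.exp_pos C₁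
  obtain ⟨e₀, he₀⟩ := ev_e K₀ (by linarith only [hK₀, p1, p2, p3, hdR, hc₃0, hC])
  obtain ⟨L₀, hL₀⟩ := ev_L5 (1 / 8) M₀ (by norm_num) (by norm_num)
    (by linarith only [hM₀, hY₀, p4, p5, p6, hdR])
  -- `1000 L^(1/2) (log L)^3 ≤ L`
  have hev : ∀ᶠ L : ℝ in atTop, 1000 * (Real.log L) ^ (3:ℝ) ≤ L ^ (1 / 2 : ℝ) := by
    have h := (isLittleO_log_rpow_rpow_atTop 3 (show (0:ℝ) < 1 / 2 by norm_num)).def
      (show (0:ℝ) < 1 / 1000 by norm_num)
    filter_upwards [h, eventually_ge_atTop (1:ℝ)] with L hL hL1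
    rw [Real.norm_of_nonneg (Real.rpow_nonneg (Real.log_nonneg hL1) _),
      Real.norm_of_nonneg (Real.rpow_nonneg (by linarith) _)] at hL
    linarith
  obtain ⟨L₁, hL₁⟩ := Filter.eventually_atTop.1 hev
  have hA0 : (0:ℝ) < A := by
    have : (4:ℝ) ≤ A := by exact_mod_cast hA
    linarith only [this]
  refine ⟨min 1 ((1 / 2 - 3 * (1 / 8)) * c₃ / (Real.exp (2 * C) * A)), max e₀ 1,
    max (max L₀ L₁) 12, ?_, le_max_right _ _, le_max_right _ _, ?_⟩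
  · apply lt_min zero_lt_one
    norm_num
    positivity
  intro L hL e he heu κ _ _ _ hκ hit huniq 𝒜 N Err hN hErr hcnt hfin
  have hLa : L₀ ≤ L := ((le_max_left _ _).trans (le_max_left _ _)).trans hL
  have hLb : L₁ ≤ L := ((le_max_right _ _).trans (le_max_left _ _)).trans hL
  have hL12 : 12 ≤ L := (le_max_right _ _).trans hL
  have hL0 : 0 < L := by linarith only [hL12]
  obtain ⟨he1, he3, helog⟩ := he₀ e ((le_max_left _ _).trans he)
  obtain ⟨a1, a2, a3, a4, a5⟩ := hL₀ L hLa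
  have he1' : 1 ≤ e := (le_max_right _ _).trans he
  have he0 : 0 < e := by linarith only [he1']
  have hl0 : 0 < Real.log L := by linarith only [a2]
  have heu' : e ≤ (1 - 1 / 8) * Real.log L := by linarith only [heu, hl0]
  have b1 := a5 e he1' heu'
  have hX0 : 0 ≤ e * L / Real.log L := by positivity
  have hκ1 : (Fintype.card κ : ℝ) ≤ e * L / Real.log L := by
    refine hκ.trans ?_
    have := mul_le_mul_of_nonneg_right (min_le_left 1 ((1 / 2 - 3 * (1 / 8)) * c₃ /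
      (Real.exp (2 * C) * A))) hX0
    linarith only [this]
  have hκ2 : (Fintype.card κ : ℝ) * (Real.exp (2 * C) * (A * Real.log L)) ≤
      (1 / 2 - 3 * (1 / 8)) * (c₃ * (e * L)) := by
    have h1 : (Fintype.card κ : ℝ) ≤ (1 / 2 - 3 * (1 / 8)) * c₃ / (Real.exp (2 * C) * A) *
        (e * L / Real.log L) := hκ.trans (mul_le_mul_of_nonneg_right (min_le_right _ _) hX0)
    have h2 : 0 ≤ Real.exp (2 * C) * (A * Real.log L) := by positivity
    refine (mul_le_mul_of_nonneg_right h1 h2).trans (le_of_eq ?_)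
    field_simp
  have hexp : Real.exp (2 * e) ≤ L ^ (1 / 2 : ℝ) := by
    rw [Real.rpow_def_of_pos hL0]
    apply Real.exp_le_exp.2
    linarith only [heu]
  have h3 : 1000 * (Real.exp (2 * e) * (Real.log L) ^ 3) ≤ L := by
    have g1 := hL₁ L hLb
    have e0 : (Real.log L) ^ (3:ℝ) = (Real.log L) ^ (3:ℕ) := by
      have := Real.rpow_natCast (Real.log L) 3
      push_cast at this
      exact this
    rw [e0] at g1
    have g2 : 0 ≤ (Real.log L) ^ 3 := by positivity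
    calc 1000 * (Real.exp (2 * e) * (Real.log L) ^ 3)
        ≤ 1000 * (L ^ (1 / 2 : ℝ) * (Real.log L) ^ 3) := by
          apply mul_le_mul_of_nonneg_left _ (by norm_num)
          exact mul_le_mul_of_nonneg_right hexp g2
      _ = L ^ (1 / 2 : ℝ) * (1000 * (Real.log L) ^ 3) := by ring
      _ ≤ L ^ (1 / 2 : ℝ) * L ^ (1 / 2 : ℝ) :=
          mul_le_mul_of_nonneg_left g1 (Real.rpow_nonneg hL0.le _)
      _ = L := by rw [← Real.rpow_add hL0]; norm_num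
  have hfin' : Real.exp (1000 * (Real.exp (2 * e) * (Real.log L) ^ 3)) *
      (Real.exp L * Err) ≤ N / 8 := by
    refine le_trans ?_ hfin
    have g1 : Real.exp (2 * L) = Real.exp L * Real.exp L := by rw [← Real.exp_add]; congr 1; ring
    rw [g1, mul_assoc]
    exact mul_le_mul_of_nonneg_right (Real.exp_le_exp.2 h3)
      (mul_nonneg (Real.exp_pos _).le hErr)
  have hzL : Real.exp ((1 / 8) ^ 2 * L / (100 * e)) ≤ Real.exp L := by
    apply Real.exp_le_exp.2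
    rw [div_le_iff₀ (by positivity)]
    nlinarith only [he1', hL0]
  have hmain := cov7_at r d B A hd hrd C c₂ Y₀ (1 / 8) K₀ M₀ C₁ c₃ hC hM hc₂ hY₀ hc₃ hRL hA
    (by norm_num) (by norm_num) hC₁ hBH
    (by linarith only [hK₀, p1, p2, p3, hdR, hc₃0, hC])
    (by linarith only [hK₀, p1, p2, p3, hdR, hc₃0, hC])
    (by linarith only [hK₀, p1, p2, p3, hdR, hc₃0, hC])
    (by linarith only [hK₀, p1, p2, p3, hdR, hc₃0, hC])
    (by linarith only [hK₀, p1, p2, p3, hdR, hc₃0, hC])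
    (by linarith only [hK₀, p1, p2, p3, hdR, hc₃0, hC])
    (by linarith only [hK₀, p1, p2, p3, hdR, hc₃0, hC])
    (by linarith only [hM₀, hY₀, p4, p5, p6, hdR])
    (by linarith only [hM₀, hY₀, p4, p5, p6, hdR])
    (by linarith only [hM₀, hY₀, p4, p5, p6, hdR])
    (by linarith only [hM₀, hY₀, p4, p5, p6, hdR])
    (by linarith only [hM₀, hY₀, p4, p5, p6, hdR])
    (by linarith only [hM₀, hY₀, p4, p5, p6, hdR])
    L e he1 he3 helog a1 a2 a4 heu' b1 κ hκ1 hκ2 hit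
    (fun p hp h1 _ => huniq p hp h1) 𝒜 N Err hN hErr hcnt hfin'
  refine hmain.trans ?_
  apply mul_le_mul_of_nonneg_right _ (Real.exp_pos _).le
  have : (𝒜.filter (fun a => ∀ k : κ, ∃ p : ℕ, p.Prime ∧
      L ^ A < p ∧ (p : ℝ) ≤ Real.exp ((1 / 8) ^ 2 * L / (100 * e)) ∧ hit p a k)).card ≤
      (𝒜.filter (fun a => ∀ k : κ, ∃ p : ℕ, p.Prime ∧
      L ^ A < p ∧ (p : ℝ) ≤ Real.exp L ∧ hit p a k)).card := by
    apply Finset.card_le_card
    intro a ha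
    rw [Finset.mem_filter] at ha ⊢
    refine ⟨ha.1, fun k => ?_⟩
    obtain ⟨p, g1, g2, g3, g4⟩ := ha.2 k
    exact ⟨p, g1, g2, g3.trans hzL, g4⟩
  exact_mod_cast this

end Pool.Agent.K4H19.PF
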