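import Pool.Agent.K4H19.PF.Fin7

set_option autoImplicit false
set_option linter.unusedSectionVars false
set_option linter.unusedVariables false

/-! # Frequency of long strings of composite values of a polynomial: the final count -/

namespace Pool.Agent.K4H19.PF

open Finset Filter Polynomial
open Pool.Agent.H474R2.PG (rho PR Sg rough_lower rho_le no_collision growth)
open Pool.Agent.H474R2.GE (mertens_rho good_classes SS prod_SS)

open scoped Classical

/-- the product over the small primes -/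
theorem prod_small (f : ℤ[X]) (C : ℝ)
    (hM : ∀ w : ℝ, 3 ≤ w → |Sg (rho f) w - Real.log (Real.log w)| ≤ C) (H : ℕ) (hH : 3 ≤ H) :
    (∏ p ∈ SS H, (1 - (rho f p : ℝ) / p)) * Real.log H ≤ Real.exp C := by
  have hHR : (3:ℝ) ≤ H := by exact_mod_cast hH
  have hlH : 0 < Real.log (H:ℝ) := Real.log_pos (by linarith)
  have hset : SS H = PR (H:ℝ) := by
    unfold SS PR
    ext p
    rw [Finset.mem_filter, Finset.mem_filter, Finset.mem_range, Finset.mem_Icc, Nat.floor_natCast]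
    constructor
    · rintro ⟨h1, h2⟩
      exact ⟨⟨h2.one_le, by omega⟩, h2⟩
    · rintro ⟨h1, h2⟩
      exact ⟨by omega, h2⟩
  have h1 : ∏ p ∈ SS H, (1 - (rho f p : ℝ) / p) ≤ Real.exp (-(Sg (rho f) H)) := by
    rw [hset]
    unfold Sg
    rw [← Finset.sum_neg_distrib, Real.exp_sum]
    apply Finset.prod_le_prod
    · intro p hp
      have hpp : p.Prime := (Finset.mem_filter.1 hp).2
      have hp0 : (0:ℝ) < p := by exact_mod_cast hpp.pos
      rw [sub_nonneg, div_le_one hp0]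
      exact_mod_cast Pool.Agent.H474R2.PG.rho_le_self f p
    · intro p _
      have := Real.add_one_le_exp (-((rho f p : ℝ) / p))
      linarith
  have h2 := (abs_le.1 (hM H hHR)).1
  have h3 : Real.exp (-(Sg (rho f) H)) ≤ Real.exp C / Real.log H := by
    have e1 : Real.exp C / Real.log H = Real.exp (C - Real.log (Real.log H)) := by
      rw [Real.exp_sub, Real.exp_log hlH]
    rw [e1]
    apply Real.exp_le_exp.2
    linarith
  calc _ ≤ Real.exp C / Real.log H * Real.log H :=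
        mul_le_mul_of_nonneg_right (h1.trans h3) hlH.le
    _ = Real.exp C := by field_simp

/-- one class modulo the small primes -/
theorem class_count (f : ℤ[X]) (d A : ℕ) (c₀ e L : ℝ)
    (hcov : ∀ (κ : Type) [Fintype κ] [DecidableEq κ] [Nonempty κ],
      (Fintype.card κ : ℝ) ≤ c₀ * (e * L / Real.log L) →
      ∀ (hit : ℕ → ℤ → κ → Prop),
      (∀ p : ℕ, p.Prime → L ^ A < p → ∀ a k l, hit p a k → hit p a l → k = l) →
      ∀ (𝒜 : Finset ℤ) (N Err : ℝ), 0 < N → 0 ≤ Err →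
      (∀ (T : Finset ℕ) (s : ℕ → κ), (∏ p ∈ T, (p : ℝ)) ≤ Real.exp L →
        (∀ p ∈ T, p.Prime ∧ L ^ A < (p:ℝ)) →
        |((𝒜.filter (fun a => ∀ p ∈ T, hit p a (s p))).card : ℝ) -
          N * ∏ p ∈ T, dn (rho f) p| ≤ Err) →
      Real.exp (2 * L) * Err ≤ N / 8 →
      3 / 8 * N ≤ ((𝒜.filter (fun a => ∀ k : κ, ∃ p : ℕ, p.Prime ∧
        L ^ A < p ∧ (p : ℝ) ≤ Real.exp L ∧ hit p a k)).card : ℝ) *
        Real.exp (e ^ 2 * Real.exp e))
    (hL : 12 ≤ L) (hA : 1 ≤ A) (he : 0 ≤ e)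
    (hNC : ∀ p : ℕ, p.Prime → L ^ A < (p : ℝ) →
      ∀ t : ℕ, 1 ≤ t → (t : ℝ) ≤ L ^ 2 → ∀ x : ℤ, (p : ℤ) ∣ f.eval x →
        ¬ (p : ℤ) ∣ f.eval (x + (t : ℤ)))
    (H : ℕ) (hH : (H:ℝ) ≤ L ^ 2) (M B' : ℤ) (hMB : M ≤ B') (W : ℕ)
    (hW : W = primorial ⌊L⌋₊) (b : ℤ)
    (hRs : ((((Finset.range (H + 1)).filter
      (fun k : ℕ => ∀ p ∈ SS ⌊L⌋₊, ¬ (p : ℤ) ∣ f.eval (b + (k : ℤ)))).card : ℝ)) ≤
      c₀ * (e * L / Real.log L))
    (hN : 8 * Real.exp (3 * L) ≤ ((B' : ℝ) - M) / W) :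
    3 / 8 * (((B' : ℝ) - M) / W) ≤ (((Finset.Ioc M B').filter (fun a : ℤ => (W : ℤ) ∣ a - b ∧
      ∀ k ∈ Finset.range (H + 1), ∃ p : ℕ, p.Prime ∧ (p : ℝ) ≤ Real.exp L ∧
        (p : ℤ) ∣ f.eval (a + (k : ℤ)))).card : ℝ) * Real.exp (e ^ 2 * Real.exp e) := by
  have hL0 : 0 < L := by linarith
  have hL1 : 1 ≤ L := by linarith
  have hexpL : L ≤ Real.exp L := by linarith [Real.add_one_le_exp L]
  have hLA : L ≤ L ^ A := le_self_pow₀ hL1 (by omega)
  set N : ℝ := ((B' : ℝ) - M) / W with hNd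
  have hN0 : 0 < N := lt_of_lt_of_le (by positivity) hN
  have hW1 : 1 ≤ W := by rw [hW]; exact primorial_pos _
  set Rs : Finset ℕ := (Finset.range (H + 1)).filter
      (fun k : ℕ => ∀ p ∈ SS ⌊L⌋₊, ¬ (p : ℤ) ∣ f.eval (b + (k : ℤ))) with hRsd
  set 𝒜 : Finset ℤ := (Finset.Ioc M B').filter (fun a : ℤ => (W : ℤ) ∣ a - b) with h𝒜
  have hSSW : ∀ p ∈ SS ⌊L⌋₊, (p : ℤ) ∣ (W : ℤ) := by
    intro p hp
    have : p ∣ W := by
      rw [hW, ← prod_SS]
      exact Finset.dvd_prod_of_mem _ hp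
    exact_mod_cast this
  have hSSp : ∀ p ∈ SS ⌊L⌋₊, p.Prime ∧ (p:ℝ) ≤ L := by
    intro p hp
    unfold SS at hp
    rw [Finset.mem_filter, Finset.mem_range] at hp
    refine ⟨hp.2, ?_⟩
    have h1 : p ≤ ⌊L⌋₊ := by omega
    calc (p:ℝ) ≤ (⌊L⌋₊ : ℝ) := by exact_mod_cast h1
      _ ≤ L := Nat.floor_le hL0.le
  have hWnd : ∀ p : ℕ, p.Prime → L ^ A < (p:ℝ) → ¬ p ∣ W := by
    intro p hp hpL hdvd
    rw [hW, ← prod_SS] at hdvd
    obtain ⟨q, hq, hq2⟩ := (Prime.dvd_finsetProd_iff hp.prime _).mp hdvd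
    have h1 : p = q := (Nat.prime_dvd_prime_iff_eq hp (hSSp q hq).1).mp hq2
    have h2 := (hSSp q hq).2
    rw [← h1] at h2
    linarith
  -- the non-survivors
  have hsmall : ∀ a : ℤ, (W : ℤ) ∣ a - b → ∀ k ∈ Finset.range (H + 1), k ∉ Rs →
      ∃ p : ℕ, p.Prime ∧ (p : ℝ) ≤ Real.exp L ∧ (p : ℤ) ∣ f.eval (a + (k : ℤ)) := by
    intro a ha k hk hkR
    rw [hRsd, Finset.mem_filter, not_and] at hkR
    have h1 := hkR hk
    push Not at h1
    obtain ⟨p, hp, hpd⟩ := h1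
    refine ⟨p, (hSSp p hp).1, (hSSp p hp).2.trans hexpL, ?_⟩
    have h2 : (p : ℤ) ∣ a - b := (hSSW p hp).trans ha
    refine (eval_dvd_congr f p _ _ ?_).1 hpd
    have e : b + (k:ℤ) - (a + k) = -(a - b) := by ring
    rw [e]
    exact (dvd_neg).2 h2
  rcases Rs.eq_empty_or_nonempty with hemp | hne
  · have h1 := count_ap M B' hMB W hW1 b
    have h2 : 𝒜 ⊆ (Finset.Ioc M B').filter (fun a : ℤ => (W : ℤ) ∣ a - b ∧
      ∀ k ∈ Finset.range (H + 1), ∃ p : ℕ, p.Prime ∧ (p : ℝ) ≤ Real.exp L ∧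
        (p : ℤ) ∣ f.eval (a + (k : ℤ))) := by
      intro a ha
      rw [h𝒜, Finset.mem_filter] at ha
      rw [Finset.mem_filter]
      exact ⟨ha.1, ha.2, fun k hk => hsmall a ha.2 k hk (by rw [hemp]; simp)⟩
    have h3 : (𝒜.card : ℝ) ≤ (((Finset.Ioc M B').filter (fun a : ℤ => (W : ℤ) ∣ a - b ∧
      ∀ k ∈ Finset.range (H + 1), ∃ p : ℕ, p.Prime ∧ (p : ℝ) ≤ Real.exp L ∧
        (p : ℤ) ∣ f.eval (a + (k : ℤ)))).card : ℝ) := by
      exact_mod_cast Finset.card_le_card h2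
    have h4 := (abs_le.1 h1).1
    rw [← h𝒜] at h4
    have h5 : 1 ≤ Real.exp (e ^ 2 * Real.exp e) := Real.one_le_exp (by positivity)
    have h6 : 8 ≤ N := by
      have : 1 ≤ Real.exp (3 * L) := Real.one_le_exp (by positivity)
      linarith
    have h7 : 3 / 8 * N ≤ (𝒜.card : ℝ) := by linarith
    have h8 : (0:ℝ) ≤ 𝒜.card := Nat.cast_nonneg _
    calc 3 / 8 * N ≤ (𝒜.card : ℝ) * 1 := by linarith
      _ ≤ _ := mul_le_mul h3 h5 zero_le_one (Nat.cast_nonneg _)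
  · have : Nonempty (↥Rs) := hne.to_subtype
    have hT1 : ∀ k ∈ Rs, (k : ℝ) ≤ L ^ 2 := by
      intro k h1
      rw [hRsd, Finset.mem_filter, Finset.mem_range] at h1
      have h2 : (k : ℝ) ≤ H := by exact_mod_cast Nat.lt_succ_iff.mp h1.1
      linarith
    have hT2 : ∀ k : ↥Rs, ((k : ℕ) : ℝ) ≤ L ^ 2 := fun k => hT1 k k.2
    set hit : ℕ → ℤ → (↥Rs) → Prop := fun p a k => (p : ℤ) ∣ f.eval (a + ((k : ℕ) : ℤ)) with hhit
    have huniq : ∀ p : ℕ, p.Prime → L ^ A < p → ∀ a (k k' : ↥Rs), (k : ℕ) < (k' : ℕ) →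
        hit p a k → hit p a k' → False := by
      intro p hp hpA a k k' hkk h1 h2
      have h3 := hNC p hp hpA ((k' : ℕ) - (k : ℕ)) (by omega) (by
        have e1 : (((k' : ℕ) - (k : ℕ) : ℕ) : ℝ) ≤ ((k' : ℕ) : ℝ) := by
          exact_mod_cast Nat.sub_le _ _
        exact e1.trans (hT2 k')) (a + ((k : ℕ) : ℤ)) h1
      apply h3
      have e2 : a + ((k : ℕ) : ℤ) + (((k' : ℕ) - (k : ℕ) : ℕ) : ℤ) = a + ((k' : ℕ) : ℤ) := by
        push_cast [Nat.cast_sub hkk.le]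
        ring
      rw [e2]
      exact h2
    have hmain := hcov (↥Rs) (by rw [Fintype.card_coe]; exact hRs) hit
      (by
        intro p hp hpA a k k' h1 h2
        rcases lt_trichotomy (k : ℕ) (k' : ℕ) with h | h | h
        · exact (huniq p hp hpA a k k' h h1 h2).elim
        · exact Subtype.ext h
        · exact (huniq p hp hpA a k' k h h2 h1).elim)
      𝒜 N (Real.exp L) hN0 (Real.exp_pos _).le
      (by
        intro T s hTX hT
        have h1 := count_class f M B' hMB W hW1 b T (fun p hp => ⟨(hT p hp).1,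
          hWnd p (hT p hp).1 (hT p hp).2⟩) (fun p => ((s p : ℕ) : ℤ))
        have h2 : 𝒜.filter (fun a => ∀ p ∈ T, hit p a (s p)) =
            (Finset.Ioc M B').filter (fun a : ℤ => (W : ℤ) ∣ a - b ∧
              ∀ p ∈ T, (p : ℤ) ∣ f.eval (a + ((s p : ℕ) : ℤ))) := by
          rw [h𝒜, Finset.filter_filter]
        have h3 : ∏ p ∈ T, (rho f p : ℝ) ≤ Real.exp L := by
          refine le_trans ?_ hTX
          apply Finset.prod_le_prod
          · intro p _; positivity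
          · intro p _
            exact_mod_cast Pool.Agent.H474R2.PG.rho_le_self f p
        have h4 := h1.trans h3
        rw [← h2] at h4
        refine le_trans (le_of_eq ?_) h4
        unfold dn
        congr!)
      (by
        have e1 : Real.exp (2 * L) * Real.exp L = Real.exp (3 * L) := by
          rw [← Real.exp_add]; congr 1; ring
        rw [e1]
        linarith)
    refine hmain.trans ?_
    apply mul_le_mul_of_nonneg_right _ (Real.exp_pos _).le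
    have h5 : (𝒜.filter (fun a => ∀ k : ↥Rs, ∃ p : ℕ, p.Prime ∧
        L ^ A < p ∧ (p : ℝ) ≤ Real.exp L ∧ hit p a k)) ⊆
        (Finset.Ioc M B').filter (fun a : ℤ => (W : ℤ) ∣ a - b ∧
      ∀ k ∈ Finset.range (H + 1), ∃ p : ℕ, p.Prime ∧ (p : ℝ) ≤ Real.exp L ∧
        (p : ℤ) ∣ f.eval (a + (k : ℤ))) := by
      intro a ha
      rw [Finset.mem_filter, h𝒜, Finset.mem_filter] at ha
      rw [Finset.mem_filter]
      refine ⟨ha.1.1, ha.1.2, fun k hk => ?_⟩
      by_cases hkR : k ∈ Rs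
      · obtain ⟨p, g1, g2, g3, g4⟩ := ha.2 ⟨k, hkR⟩
        exact ⟨p, g1, g3, g4⟩
      · exact hsmall a ha.1.2 k hk hkR
    exact_mod_cast Finset.card_le_card h5

/-- the sum over the classes -/
theorem sum_classes (W : ℕ) (hW : 1 ≤ W) (S : Finset ℤ) (G : Finset ℕ) (hG : G ⊆ range W) :
    ∑ b ∈ G, (S.filter (fun a : ℤ => (W : ℤ) ∣ a - (b:ℤ))).card ≤ S.card := by
  have h1 : ∀ b ∈ G, (S.filter (fun a : ℤ => (W : ℤ) ∣ a - (b:ℤ))).card =
      ∑ a ∈ S, if (W : ℤ) ∣ a - (b:ℤ) then 1 else 0 := by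
    intro b _
    rw [Finset.card_filter]
  rw [Finset.sum_congr rfl h1, Finset.sum_comm, Finset.card_eq_sum_ones]
  apply Finset.sum_le_sum
  intro a _
  rw [← Finset.card_filter]
  apply Finset.card_le_one.2
  intro b hb b' hb'
  rw [Finset.mem_filter] at hb hb'
  have h2 := hG hb.1
  have h3 := hG hb'.1
  rw [Finset.mem_range] at h2 h3
  have h4 : (W : ℤ) ∣ (b:ℤ) - b' := by
    have := dvd_sub hb'.2 hb.2
    have e : a - (b':ℤ) - (a - b) = b - b' := by ring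
    rwa [e] at this
  obtain ⟨t, ht⟩ := h4
  have h5 : t = 0 := by
    by_contra hne
    rcases lt_or_gt_of_ne hne with h | h
    · have : (W:ℤ) * t ≤ W * (-1) := mul_le_mul_of_nonneg_left (by omega) (by positivity)
      omega
    · have : (W:ℤ) * 1 ≤ W * t := mul_le_mul_of_nonneg_left (by omega) (by positivity)
      omega
  rw [h5] at ht
  omega

end Pool.Agent.K4H19.PF
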