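import Pool.Agent.K4H19.PF.Fin8

set_option autoImplicit false
set_option linter.unusedSectionVars false
set_option linter.unusedVariables false

/-! # Frequency of long strings of composite values of a polynomial: main theorem -/

namespace Pool.Agent.K4H19.PF

open Finset Filter Polynomial
open Pool.Agent.H474R2.PG (rho PR Sg rough_lower rho_le no_collision growth)
open Pool.Agent.H474R2.GE (mertens_rho good_classes SS prod_SS)

open scoped Classical

theorem sq_le_exp {e : ℝ} (he : 0 ≤ e) : e ^ 2 ≤ Real.exp e := by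
  have h1 := Real.quadratic_le_exp_of_nonneg (show 0 ≤ e / 2 by positivity)
  have h2 : Real.exp e = Real.exp (e / 2) * Real.exp (e / 2) := by
    rw [← Real.exp_add]; congr 1; ring
  have h3 : 1 + e / 2 + (e / 2) ^ 2 / 2 ≤ Real.exp (e / 2) := h1
  have h4 : e ≤ 1 + e / 2 + (e / 2) ^ 2 / 2 := by nlinarith [sq_nonneg (e / 2 - 1)]
  rw [h2]
  nlinarith

theorem loss_bound {e : ℝ} (he : 4 ≤ e) (Y X : ℝ) (hY : 0 < Y)
    (hX : 3 / 64 * Y ≤ X * Real.exp (e ^ 2 * Real.exp e)) :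
    Y * Real.exp (-Real.exp (3 * e)) ≤ X := by
  have he0 : 0 ≤ e := by linarith
  have h1 := sq_le_exp he0
  have h2 : e ^ 2 * Real.exp e ≤ Real.exp (2 * e) := by
    have : Real.exp (2 * e) = Real.exp e * Real.exp e := by rw [← Real.exp_add]; congr 1; ring
    rw [this]
    exact mul_le_mul_of_nonneg_right h1 (Real.exp_pos e).le
  have h3 : 4 + e ^ 2 * Real.exp e ≤ Real.exp (3 * e) := by
    have e1 : Real.exp (3 * e) = Real.exp (2 * e) * Real.exp e := by
      rw [← Real.exp_add]; congr 1; ring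
    have e2 : 4 ≤ Real.exp e := by linarith [Real.add_one_le_exp e]
    have e3 : 4 ≤ Real.exp (2 * e) := by linarith [Real.add_one_le_exp (2 * e)]
    rw [e1]
    nlinarith
  have h4 : 64 / 3 ≤ Real.exp 4 := by
    have e1 := Real.exp_one_gt_d9
    have e2 : Real.exp 4 = Real.exp 1 ^ 4 := by rw [← Real.exp_nat_mul]; norm_num
    have e3 : (2.7:ℝ) ^ 4 ≤ Real.exp 1 ^ 4 := pow_le_pow_left₀ (by norm_num) (by linarith) 4
    rw [e2]
    norm_num at e3 ⊢
    linarith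
  have hE := Real.exp_pos (e ^ 2 * Real.exp e)
  have h5 : 64 / 3 * Real.exp (e ^ 2 * Real.exp e) ≤ Real.exp (Real.exp (3 * e)) := by
    calc 64 / 3 * Real.exp (e ^ 2 * Real.exp e) ≤ Real.exp 4 * Real.exp (e ^ 2 * Real.exp e) :=
          mul_le_mul_of_nonneg_right h4 hE.le
      _ = Real.exp (4 + e ^ 2 * Real.exp e) := by rw [← Real.exp_add]
      _ ≤ _ := Real.exp_le_exp.2 h3
  have hX0 : 0 < X := by
    by_contra hc
    push Not at hc
    nlinarith
  rw [Real.exp_neg, ← div_eq_mul_inv, div_le_iff₀ (Real.exp_pos _)]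
  calc Y = 64 / 3 * (3 / 64 * Y) := by ring
    _ ≤ 64 / 3 * (X * Real.exp (e ^ 2 * Real.exp e)) := mul_le_mul_of_nonneg_left hX (by norm_num)
    _ = X * (64 / 3 * Real.exp (e ^ 2 * Real.exp e)) := by ring
    _ ≤ _ := mul_le_mul_of_nonneg_left h5 hX0.le

theorem primorial_le_exp {L : ℝ} (hL : 0 ≤ L) : (primorial ⌊L⌋₊ : ℝ) ≤ Real.exp (2 * L) := by
  have h1 : (primorial ⌊L⌋₊ : ℝ) ≤ (4 : ℝ) ^ ⌊L⌋₊ := by
    exact_mod_cast primorial_le_four_pow _
  refine h1.trans ?_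
  rw [← Real.rpow_natCast]
  have h2 : (4 : ℝ) ^ ((⌊L⌋₊ : ℕ) : ℝ) ≤ (4 : ℝ) ^ L :=
    Real.rpow_le_rpow_of_exponent_le (by norm_num) (Nat.floor_le hL)
  refine h2.trans ?_
  rw [Real.rpow_def_of_pos (by norm_num : (0 : ℝ) < 4)]
  apply Real.exp_le_exp.2
  have h3 : Real.log 4 ≤ 3 / 2 := by
    have : Real.log 4 = 2 * Real.log 2 := by
      rw [show (4 : ℝ) = 2 ^ (2 : ℕ) by norm_num, Real.log_pow]; norm_num
    have := Real.log_two_lt_d9
    linarith
  nlinarith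

/-- **Frequency of long strings of composite values.** -/
theorem main_freq (f : ℤ[X]) (hf : Irreducible f) (hd : 0 < f.natDegree)
    (hl : 0 < f.leadingCoeff) :
    ∃ c C Y₀ : ℝ, 0 < c ∧ 0 < C ∧ ∀ Y : ℝ, Y₀ ≤ Y → ∀ M : ℤ, Y ≤ M → ∀ lam : ℝ, 1 ≤ lam →
      lam ≤ c * Real.log (Real.log Y) →
      Y * Real.exp (-Real.exp (C * lam)) ≤
        (((Finset.Ioc M (M + ⌊Y / 2⌋)).filter (fun x : ℤ => ∀ k : ℕ, (k : ℝ) ≤ lam * Real.log Y →
          ∃ p : ℕ, p.Prime ∧ (p : ℝ) ≤ Y ^ (1 / 10 : ℝ) ∧ (p : ℤ) ∣ f.eval (x + (k : ℤ)) ∧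
            (p : ℤ) < f.eval (x + (k : ℤ)))).card : ℝ) := by
  obtain ⟨B, hB⟩ := rho_le f hf.ne_zero
  obtain ⟨C, hC0, hM⟩ := mertens_rho f hf hd
  obtain ⟨c₂, hc₂, Z₀, hZ₀, hRL⟩ := rough_lower (rho f) f.natDegree B hB C
    (fun w hw => by
      have := (abs_le.1 (hM w hw)).1
      linarith)
  obtain ⟨A₀, hA₀, T₀, hNC⟩ := no_collision f hf hd
  obtain ⟨A, hA⟩ : ∃ A : ℕ, A = max A₀ 4 := ⟨_, rfl⟩
  have hA4 : 4 ≤ A := by rw [hA]; exact le_max_right _ _
  have hAA : A₀ ≤ A := by rw [hA]; exact le_max_left _ _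
  obtain ⟨c₀, e₀, L₀, hc₀, he₀, hL₀, hcov⟩ := cov7 (rho f) f.natDegree B A hd hB C c₂ Z₀ hC0 hM
    hc₂ hZ₀ hRL hA4
  obtain ⟨x₀, hx₀⟩ := growth f hd hl
  obtain ⟨K, hK⟩ : ∃ K : ℝ, K = e₀ + 4 + 128 * Real.exp C / c₀ := ⟨_, rfl⟩
  have hEC := Real.exp_pos C
  have hK1 : 0 < 128 * Real.exp C / c₀ := by positivity
  have hK0 : 4 ≤ K := by linarith
  have hKe : e₀ ≤ K := by linarith
  have hKc : 128 * Real.exp C ≤ c₀ * K := by
    have : 128 * Real.exp C / c₀ ≤ K := by linarith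
    rw [div_le_iff₀ hc₀] at this
    linarith
  -- largeness
  have t1 : Tendsto (fun Y : ℝ => Real.log Y) atTop atTop := Real.tendsto_log_atTop
  have t2 : Tendsto (fun Y : ℝ => Real.log (Real.log Y)) atTop atTop := t1.comp t1
  have key : ∀ᶠ Y : ℝ in atTop, 1 ≤ Y ∧ (x₀ : ℝ) ≤ Y ∧ 16 * (max L₀ (max T₀ 100)) ≤ Real.log Y ∧
      2 * Real.log 16 ≤ Real.log (Real.log Y) ∧
      32 * Real.log (Real.log Y) ≤ Real.log Y := by
    have e1 : ∀ᶠ Y : ℝ in atTop, 32 * Real.log (Real.log Y) ≤ Real.log Y := by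
      have h1 : ∀ᶠ t : ℝ in atTop, 32 * Real.log t ≤ t := by
        have h2 := Real.isLittleO_log_id_atTop.def (show (0:ℝ) < 1 / 32 by positivity)
        filter_upwards [h2, eventually_ge_atTop (1:ℝ)] with t ht ht1
        rw [Real.norm_eq_abs, abs_of_nonneg (Real.log_nonneg ht1), Real.norm_eq_abs] at ht
        simp only [id] at ht
        rw [abs_of_nonneg (by linarith)] at ht
        linarith
      exact t1.eventually h1
    filter_upwards [eventually_ge_atTop (1:ℝ), eventually_ge_atTop (x₀ : ℝ),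
      t1.eventually_ge_atTop (16 * (max L₀ (max T₀ 100))),
      t2.eventually_ge_atTop (2 * Real.log 16), e1] with Y a1 a2 a3 a4 a5
    exact ⟨a1, a2, a3, a4, a5⟩
  obtain ⟨Y₀, hY₀⟩ := eventually_atTop.mp key
  refine ⟨1 / (8 * K), 3 * K, Y₀, by positivity, by positivity, fun Y hY M hMY lam hlam1 hlam2 => ?_⟩
  obtain ⟨a1, a2, a3, a4, a5⟩ := hY₀ Y hY
  have hY0 : 0 < Y := by linarith
  obtain ⟨L, hLd⟩ : ∃ L : ℝ, L = Real.log Y / 16 := ⟨_, rfl⟩
  have hLY : Real.log Y = 16 * L := by rw [hLd]; ring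
  have hYexp : Y = Real.exp (16 * L) := by rw [← hLY, Real.exp_log hY0]
  have hmax : max L₀ (max T₀ 100) ≤ L := by rw [hLd, le_div_iff₀ (by norm_num)]; linarith
  have hL₀L : L₀ ≤ L := (le_max_left _ _).trans hmax
  have hT₀L : T₀ ≤ L := (le_max_left _ _).trans ((le_max_right _ _).trans hmax)
  have hL100 : 100 ≤ L := (le_max_right _ _).trans ((le_max_right _ _).trans hmax)
  have hL0 : 0 < L := by linarith
  have hL1 : 1 ≤ L := by linarith
  obtain ⟨l, hld⟩ : ∃ l : ℝ, l = Real.log (Real.log Y) := ⟨_, rfl⟩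
  rw [← hld] at a4 a5 hlam2
  have hlogL : Real.log L = l - Real.log 16 := by
    rw [hLd, hld, Real.log_div (by rw [hLY]; positivity) (by norm_num)]
  have hlog16 : 0 < Real.log 16 := Real.log_pos (by norm_num)
  have hl0 : 0 < l := by linarith
  have hlogL1 : l / 2 ≤ Real.log L := by rw [hlogL]; linarith
  have hlogL0 : 0 < Real.log L := by linarith
  -- the parameter `e`
  obtain ⟨e, hed⟩ : ∃ e : ℝ, e = K * lam := ⟨_, rfl⟩
  have hKlam : K ≤ e := by rw [hed]; nlinarith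
  have he4 : 4 ≤ e := by linarith
  have heu : e ≤ (1 / 4) * Real.log L := by
    have h1 : K * lam ≤ K * (1 / (8 * K) * l) := mul_le_mul_of_nonneg_left hlam2 (by linarith)
    have h2 : K * (1 / (8 * K) * l) = l / 8 := by field_simp
    rw [hed]
    linarith
  have hlaml : lam ≤ l / 32 := by
    refine hlam2.trans ?_
    have h1 : 1 / (8 * K) ≤ 1 / 32 := one_div_le_one_div_of_le (by norm_num) (by linarith)
    nlinarith
  -- number of shifts
  obtain ⟨H, hHd⟩ : ∃ H : ℕ, H = ⌊lam * Real.log Y⌋₊ := ⟨_, rfl⟩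
  have hlamY : 0 ≤ lam * Real.log Y := by rw [hLY]; positivity
  have hH1 : (H:ℝ) ≤ lam * Real.log Y := by rw [hHd]; exact Nat.floor_le hlamY
  have hHL : (H:ℝ) ≤ L ^ 2 := by
    refine hH1.trans ?_
    rw [hLY]
    have h1 : 16 * lam ≤ L := by
      have : 32 * l ≤ 16 * L := by rw [← hLY]; exact a5
      linarith
    calc lam * (16 * L) = (16 * lam) * L := by ring
      _ ≤ L * L := mul_le_mul_of_nonneg_right h1 hL0.le
      _ = L ^ 2 := by ring
  -- the small primes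
  obtain ⟨W, hW⟩ : ∃ W : ℕ, W = primorial ⌊L⌋₊ := ⟨_, rfl⟩
  have hWpos : 0 < W := by rw [hW]; exact primorial_pos _
  have hWR : (0:ℝ) < W := by exact_mod_cast hWpos
  have hWle : (W : ℝ) ≤ Real.exp (2 * L) := by rw [hW]; exact primorial_le_exp hL0.le
  have hfl3 : 3 ≤ ⌊L⌋₊ := Nat.le_floor (by push_cast; linarith)
  have hlfl : Real.log L / 2 ≤ Real.log (⌊L⌋₊ : ℝ) := by
    have h1 : L ≤ (⌊L⌋₊ : ℝ) ^ 2 := by
      have h2 := (Nat.lt_floor_add_one L).le
      have h3 : (3:ℝ) ≤ (⌊L⌋₊ : ℝ) := by exact_mod_cast hfl3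
      nlinarith
    have h4 := Real.log_le_log hL0 h1
    rw [Real.log_pow] at h4
    push_cast at h4
    linarith
  have hgood := good_classes f ⌊L⌋₊ ((Finset.range (H + 1)).image (fun k : ℕ => (k : ℤ)))
    (Real.exp C) ((H:ℝ) + 1) hEC (by positivity) (prod_small f C hM ⌊L⌋₊ hfl3)
    (by
      have h1 := Finset.card_image_le (s := Finset.range (H + 1)) (f := fun k : ℕ => (k : ℤ))
      rw [Finset.card_range] at h1
      exact_mod_cast h1)
  rw [← hW] at hgood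
  obtain ⟨G, hG⟩ : ∃ G : Finset ℕ, G = (range W).filter (fun b : ℕ =>
      (((((Finset.range (H + 1)).image (fun k : ℕ => (k : ℤ))).filter
        (fun a : ℤ => ∀ p ∈ SS ⌊L⌋₊, ¬ (p : ℤ) ∣ f.eval ((b : ℤ) + a))).card : ℝ) *
        Real.log (⌊L⌋₊ : ℝ) ≤ 2 * (Real.exp C * ((H:ℝ) + 1)))) := ⟨_, rfl⟩
  have hGcard : (W : ℝ) / 2 ≤ (G.card : ℝ) := by rw [hG]; convert hgood
  have hGW : G ⊆ range W := by rw [hG]; exact Finset.filter_subset _ _
  -- the survivors of a good class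
  have hsurv : ∀ b ∈ G, ((((Finset.range (H + 1)).filter
      (fun k : ℕ => ∀ p ∈ SS ⌊L⌋₊, ¬ (p : ℤ) ∣ f.eval ((b:ℤ) + (k : ℤ)))).card : ℝ)) ≤
      c₀ * (e * L / Real.log L) := by
    intro b hb
    rw [hG, Finset.mem_filter] at hb
    have h1 : ((Finset.range (H + 1)).image (fun k : ℕ => (k : ℤ))).filter
        (fun a : ℤ => ∀ p ∈ SS ⌊L⌋₊, ¬ (p : ℤ) ∣ f.eval ((b : ℤ) + a)) =
        ((Finset.range (H + 1)).filter
      (fun k : ℕ => ∀ p ∈ SS ⌊L⌋₊, ¬ (p : ℤ) ∣ f.eval ((b:ℤ) + (k : ℤ)))).image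
        (fun k : ℕ => (k : ℤ)) := by
      rw [Finset.filter_image]
    have h2 := hb.2
    rw [h1, Finset.card_image_of_injective _ Nat.cast_injective] at h2
    set s : ℝ := ((((Finset.range (H + 1)).filter
      (fun k : ℕ => ∀ p ∈ SS ⌊L⌋₊, ¬ (p : ℤ) ∣ f.eval ((b:ℤ) + (k : ℤ)))).card : ℝ)) with hs
    have hs0 : 0 ≤ s := Nat.cast_nonneg _
    have h3 : s * (Real.log L / 2) ≤ 2 * (Real.exp C * ((H:ℝ) + 1)) :=
      (mul_le_mul_of_nonneg_left hlfl hs0).trans h2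
    have h4 : (H:ℝ) + 1 ≤ 32 * (lam * L) := by
      have : (H:ℝ) ≤ 16 * (lam * L) := by
        refine hH1.trans (le_of_eq ?_)
        rw [hLY]; ring
      have h5 : 1 ≤ lam * L := by nlinarith
      linarith
    have h6 : s * (Real.log L / 2) ≤ 64 * Real.exp C * (lam * L) := by
      have h7 : 2 * (Real.exp C * ((H:ℝ) + 1)) ≤ 2 * (Real.exp C * (32 * (lam * L))) :=
        mul_le_mul_of_nonneg_left (mul_le_mul_of_nonneg_left h4 hEC.le) (by norm_num)
      linarith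
    have h8 : s * Real.log L ≤ c₀ * (e * L) := by
      have h9 : 128 * Real.exp C * (lam * L) ≤ c₀ * K * (lam * L) :=
        mul_le_mul_of_nonneg_right hKc (by positivity)
      have h10 : c₀ * (e * L) = c₀ * K * (lam * L) := by rw [hed]; ring
      rw [h10]
      linarith
    rw [mul_div_assoc', le_div_iff₀ hlogL0]
    exact h8
  -- the interval
  obtain ⟨B', hB'⟩ : ∃ B' : ℤ, B' = M + ⌊Y / 2⌋ := ⟨_, rfl⟩
  have hfl1 : Y / 2 - 1 < (⌊Y / 2⌋ : ℝ) := Int.sub_one_lt_floor _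
  have hY4 : 4 ≤ Y := by
    rw [hYexp]
    linarith [Real.add_one_le_exp (16 * L)]
  have hMB : M ≤ B' := by
    rw [hB']
    have : (0:ℤ) ≤ ⌊Y / 2⌋ := Int.floor_nonneg.mpr (by linarith)
    linarith
  have hBM : Y / 4 ≤ (B' : ℝ) - M := by
    rw [hB']
    push_cast
    linarith
  have hN : 8 * Real.exp (3 * L) ≤ ((B' : ℝ) - M) / W := by
    rw [le_div_iff₀ hWR]
    refine le_trans ?_ hBM
    calc 8 * Real.exp (3 * L) * W ≤ 8 * Real.exp (3 * L) * Real.exp (2 * L) :=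
          mul_le_mul_of_nonneg_left hWle (by positivity)
      _ = 8 * Real.exp (5 * L) := by
          rw [mul_assoc, ← Real.exp_add]; congr 2; ring
      _ ≤ Y / 4 := by
          have h1 : Y = Real.exp (5 * L) * Real.exp (11 * L) := by
            rw [← Real.exp_add, hYexp]; congr 1; ring
          have h2 : 32 ≤ Real.exp (11 * L) := by linarith [Real.add_one_le_exp (11 * L)]
          have h3 := Real.exp_pos (5 * L)
          rw [h1]
          nlinarith
  -- the good integers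
  obtain ⟨S, hS⟩ : ∃ S : Finset ℤ, S = (Finset.Ioc M B').filter (fun a : ℤ =>
      ∀ k ∈ Finset.range (H + 1), ∃ p : ℕ, p.Prime ∧ (p : ℝ) ≤ Real.exp L ∧
        (p : ℤ) ∣ f.eval (a + (k : ℤ))) := ⟨_, rfl⟩
  have hE : 0 < Real.exp (e ^ 2 * Real.exp e) := Real.exp_pos _
  have hcls : ∀ b ∈ G, 3 / 8 * (((B' : ℝ) - M) / W) ≤
      ((S.filter (fun a : ℤ => (W : ℤ) ∣ a - (b:ℤ))).card : ℝ) *
        Real.exp (e ^ 2 * Real.exp e) := by
    intro b hb
    have h1 := class_count f f.natDegree A c₀ e L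
      (fun κ _ _ _ => hcov L hL₀L e (hKe.trans hKlam) heu κ) (by linarith) (by omega)
      (by linarith)
      (fun p hp hpA t ht1 ht2 x hx => hNC L hT₀L p hp
        (lt_of_le_of_lt (pow_le_pow_right₀ hL1 hAA) hpA) t ht1 ht2 x hx)
      H hHL M B' hMB W hW (b:ℤ) (hsurv b hb) hN
    have h2 : S.filter (fun a : ℤ => (W : ℤ) ∣ a - (b:ℤ)) =
        (Finset.Ioc M B').filter (fun a : ℤ => (W : ℤ) ∣ a - (b:ℤ) ∧
      ∀ k ∈ Finset.range (H + 1), ∃ p : ℕ, p.Prime ∧ (p : ℝ) ≤ Real.exp L ∧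
        (p : ℤ) ∣ f.eval (a + (k : ℤ))) := by
      rw [hS, Finset.filter_filter]
      apply Finset.filter_congr
      intro a _
      exact and_comm
    rw [h2]
    exact h1
  have hsum : (G.card : ℝ) * (3 / 8 * (((B' : ℝ) - M) / W)) ≤
      (S.card : ℝ) * Real.exp (e ^ 2 * Real.exp e) := by
    calc (G.card : ℝ) * (3 / 8 * (((B' : ℝ) - M) / W))
        = ∑ b ∈ G, 3 / 8 * (((B' : ℝ) - M) / W) := by
          rw [Finset.sum_const, nsmul_eq_mul]
      _ ≤ ∑ b ∈ G, ((S.filter (fun a : ℤ => (W : ℤ) ∣ a - (b:ℤ))).card : ℝ) *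
            Real.exp (e ^ 2 * Real.exp e) := Finset.sum_le_sum hcls
      _ = (∑ b ∈ G, ((S.filter (fun a : ℤ => (W : ℤ) ∣ a - (b:ℤ))).card : ℝ)) *
            Real.exp (e ^ 2 * Real.exp e) := by rw [Finset.sum_mul]
      _ ≤ _ := by
          apply mul_le_mul_of_nonneg_right _ hE.le
          exact_mod_cast sum_classes W hWpos S G hGW
  have hfinal : 3 / 64 * Y ≤ (S.card : ℝ) * Real.exp (e ^ 2 * Real.exp e) := by
    refine le_trans ?_ hsum
    have h1 : (W:ℝ) / 2 * (3 / 8 * (((B' : ℝ) - M) / W)) ≤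
        (G.card : ℝ) * (3 / 8 * (((B' : ℝ) - M) / W)) := by
      apply mul_le_mul_of_nonneg_right hGcard
      have : 0 < ((B' : ℝ) - M) / W := lt_of_lt_of_le (by positivity) hN
      positivity
    refine le_trans ?_ h1
    have h2 : (W:ℝ) / 2 * (3 / 8 * (((B' : ℝ) - M) / W)) = 3 / 16 * ((B' : ℝ) - M) := by
      field_simp
      ring
    rw [h2]
    linarith
  have hres := loss_bound he4 Y (S.card : ℝ) hY0 hfinal
  have h3e : 3 * K * lam = 3 * e := by rw [hed]; ring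
  rw [h3e]
  refine hres.trans ?_
  rw [← hB']
  have hsub : S ⊆ (Finset.Ioc M B').filter (fun x : ℤ => ∀ k : ℕ,
      (k : ℝ) ≤ lam * Real.log Y →
          ∃ p : ℕ, p.Prime ∧ (p : ℝ) ≤ Y ^ (1 / 10 : ℝ) ∧ (p : ℤ) ∣ f.eval (x + (k : ℤ)) ∧
            (p : ℤ) < f.eval (x + (k : ℤ))) := by
    intro a ha
    rw [hS, Finset.mem_filter] at ha
    rw [Finset.mem_filter]
    refine ⟨ha.1, fun k hk => ?_⟩
    have hkH : k ≤ H := by rw [hHd]; exact Nat.le_floor hk
    obtain ⟨p, hp, hpL, hpd⟩ := ha.2 k (Finset.mem_range.mpr (by omega))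
    refine ⟨p, hp, ?_, hpd, ?_⟩
    · refine hpL.trans ?_
      rw [hYexp, ← Real.exp_mul]
      apply Real.exp_le_exp.2
      linarith
    · have h1 := Finset.mem_Ioc.1 ha.1
      have h2 : (Y : ℝ) ≤ ((a + (k : ℤ) : ℤ) : ℝ) := by
        push_cast
        have h2 : (M : ℝ) < a := by exact_mod_cast h1.1
        have h3 : (0:ℝ) ≤ k := Nat.cast_nonneg k
        linarith
      have h3 : x₀ ≤ a + (k : ℤ) := by
        have : (x₀ : ℝ) ≤ ((a + (k : ℤ) : ℤ) : ℝ) := by linarith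
        exact_mod_cast this
      have h4 := hx₀ _ h3
      have h5 : ((a + (k : ℤ) : ℤ) : ℝ) ≤ 2 * ((f.eval (a + (k : ℤ)) : ℤ) : ℝ) := by
        exact_mod_cast h4
      have h6 : (p : ℝ) < Y / 2 := by
        refine lt_of_le_of_lt hpL ?_
        have e1 : Y = Real.exp L * Real.exp (15 * L) := by
          rw [← Real.exp_add, hYexp]; congr 1; ring
        have e2 : 4 ≤ Real.exp (15 * L) := by linarith [Real.add_one_le_exp (15 * L)]
        have e3 := Real.exp_pos L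
        rw [e1]
        nlinarith
      have h7 : (p : ℝ) < ((f.eval (a + (k : ℤ)) : ℤ) : ℝ) := by linarith
      exact_mod_cast h7
  exact_mod_cast Finset.card_le_card hsub

end Pool.Agent.K4H19.PF
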